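import Pool.Agent.P.MP_c1ff4a_lc.Defs

-- part Pool.Agent.P.MP_c1ff4a_lc.FS
section

/-! Finite-state stream functions. -/

set_option autoImplicit false

open Classical

noncomputable section

namespace Pool.Agent.P.MP_c1ff4a_lc

variable {α β γ : Type}

/-- the state after reading `t` symbols -/
def sc {S : Type} (s₀ : S) (nx : S → α → S) (τ : ℕ → α) : ℕ → S
  | 0 => s₀
  | t + 1 => nx (sc s₀ nx τ t) (τ t)

/-- functions computed by a Mealy machine -/
def FS (Φ : (ℕ → α) → ℕ → β) : Prop :=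
  ∃ (S : Type) (_ : Finite S) (s₀ : S) (nx : S → α → S) (out : S → α → β),
    ∀ τ t, Φ τ t = out (sc s₀ nx τ t) (τ t)

/-- one sweep for each letter -/
def run {A : Type} (Φ : A → (ℕ → α) → ℕ → α) (τ : ℕ → α) (w : List A) : ℕ → α :=
  w.foldl (fun ρ a => Φ a ρ) τ

@[simp] lemma run_nil {A : Type} (Φ : A → (ℕ → α) → ℕ → α) (τ : ℕ → α) : run Φ τ [] = τ := rfl

@[simp] lemma run_snoc {A : Type} (Φ : A → (ℕ → α) → ℕ → α) (τ : ℕ → α) (w : List A) (a : A) :
    run Φ τ (w ++ [a]) = Φ a (run Φ τ w) := by simp [run]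

/-- delay by one step -/
def dl (b : α) (τ : ℕ → α) : ℕ → α
  | 0 => b
  | t + 1 => τ t

/-- restart at every marked position -/
def rst (Φ : (ℕ → α) → ℕ → β) (D : ℕ → Prop) (τ : ℕ → α) (t : ℕ) : β :=
  Φ (fun s => τ (Nat.findGreatest D t + s)) (t - Nat.findGreatest D t)

/-- keep every `B`-th mark -/
def thin (B : ℕ) (D : ℕ → Prop) (t : ℕ) : Prop :=
  D t ∧ B ∣ ((Finset.range t).filter D).card

variable {Φ : (ℕ → α) → ℕ → β}

lemma sc_congr {S : Type} (s₀ : S) (nx : S → α → S) {τ τ' : ℕ → α} (t : ℕ)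
    (h : ∀ s < t, τ s = τ' s) : sc s₀ nx τ t = sc s₀ nx τ' t := by
  induction t with
  | zero => rfl
  | succ t ih => rw [sc, sc, ih fun s hs => h s (by omega), h t (by omega)]

theorem FS.causal (h : FS Φ) {τ τ' : ℕ → α} {t : ℕ} (e : ∀ s ≤ t, τ s = τ' s) :
    Φ τ t = Φ τ' t := by
  obtain ⟨S, _, s₀, nx, out, h⟩ := h
  rw [h, h, sc_congr s₀ nx t fun s hs => e s hs.le, e t le_rfl]

theorem FS.of_eq (h : FS Φ) {Ψ : (ℕ → α) → ℕ → β} (e : ∀ τ t, Ψ τ t = Φ τ t) : FS Ψ := by
  obtain ⟨S, i, s₀, nx, out, h⟩ := h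
  exact ⟨S, i, s₀, nx, out, fun τ t => (e τ t).trans (h τ t)⟩

theorem FS.pt (f : α → β) : FS fun τ t => f (τ t) :=
  ⟨Unit, inferInstance, (), fun _ _ => (), fun _ a => f a, fun _ _ => rfl⟩

theorem FS.comp {Ψ : (ℕ → β) → ℕ → γ} (g : FS Ψ) (h : FS Φ) : FS fun τ => Ψ (Φ τ) := by
  obtain ⟨S, _, s₀, nx, out, h⟩ := h
  obtain ⟨S', _, s₀', nx', out', g⟩ := g
  refine ⟨S × S', inferInstance, (s₀, s₀'), fun s a => (nx s.1 a, nx' s.2 (out s.1 a)),
    fun s a => out' s.2 (out s.1 a), fun τ t => ?_⟩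
  have : ∀ t, sc (s₀, s₀') (fun s a => (nx s.1 a, nx' s.2 (out s.1 a))) τ t =
      (sc s₀ nx τ t, sc s₀' nx' (Φ τ) t) := fun t => by
    induction t with
    | zero => rfl
    | succ t ih => simp only [sc, ih, h]
  beta_reduce
  rw [this, g, h]

theorem FS.map (h : FS Φ) (f : β → γ) : FS fun τ t => f (Φ τ t) := (FS.pt f).comp h

theorem FS.pi {ι : Type} [Finite ι] {β : ι → Type} {Φ : ∀ i, (ℕ → α) → ℕ → β i}
    (h : ∀ i, FS (Φ i)) : FS fun τ t i => Φ i τ t := by
  choose S hS s₀ nx out h using h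
  refine ⟨∀ i, S i, inferInstance, s₀, fun s a i => nx i (s i) a, fun s a i => out i (s i) a,
    fun τ t => funext fun i => ?_⟩
  have : ∀ t, sc s₀ (fun s a i => nx i (s i) a) τ t i = sc (s₀ i) (nx i) τ t := fun t => by
    induction t with
    | zero => rfl
    | succ t ih => simp only [sc, ih]
  beta_reduce
  rw [h, this]

theorem FS.pair {Ψ : (ℕ → α) → ℕ → γ} (h : FS Φ) (g : FS Ψ) : FS fun τ t => (Φ τ t, Ψ τ t) := by
  obtain ⟨S, _, s₀, nx, out, h⟩ := h
  obtain ⟨S', _, s₀', nx', out', g⟩ := g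
  refine ⟨S × S', inferInstance, (s₀, s₀'), fun s a => (nx s.1 a, nx' s.2 a),
    fun s a => (out s.1 a, out' s.2 a), fun τ t => ?_⟩
  have : ∀ t, sc (s₀, s₀') (fun s a => (nx s.1 a, nx' s.2 a)) τ t =
      (sc s₀ nx τ t, sc s₀' nx' τ t) := fun t => by
    induction t with
    | zero => rfl
    | succ t ih => simp only [sc, ih]
  beta_reduce
  rw [this, g, h]

theorem FS.map₂ {δ : Type} {Ψ : (ℕ → α) → ℕ → γ} (h : FS Φ) (g : FS Ψ) (f : β → γ → δ) :
    FS fun τ t => f (Φ τ t) (Ψ τ t) := (h.pair g).map fun p => f p.1 p.2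

theorem FS.ite {P : (ℕ → α) → ℕ → Prop} {Ψ : (ℕ → α) → ℕ → β} (p : FS P) (h : FS Φ) (g : FS Ψ) :
    FS fun τ t => if P τ t then Φ τ t else Ψ τ t :=
  p.map₂ (h.pair g) fun a b => if a then b.1 else b.2

theorem FS.sc {S : Type} [Finite S] (h : FS Φ) (s₀ : S) (nx : S → β → S) :
    FS fun τ => sc s₀ nx (Φ τ) :=
  FS.comp ⟨S, ‹_›, s₀, nx, fun s _ => s, fun _ _ => rfl⟩ h

theorem FS.dl [Finite β] (h : FS Φ) (b : β) : FS fun τ => dl b (Φ τ) :=
  (h.sc b fun _ a => a).of_eq fun _ t => by cases t <;> rfl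

/-- all earlier positions -/
theorem FS.allLt {P : (ℕ → α) → ℕ → Prop} (h : FS P) : FS fun τ t => ∀ s < t, P τ s :=
  (h.sc True fun a b => a ∧ b).of_eq fun τ t => by
    induction t with
    | zero => simp [MP_c1ff4a_lc.sc]
    | succ t ih => rw [MP_c1ff4a_lc.sc, ← ih, Nat.forall_lt_succ_right]

theorem FS.allLe {P : (ℕ → α) → ℕ → Prop} (h : FS P) : FS fun τ t => ∀ s ≤ t, P τ s :=
  (h.allLt.map₂ h And).of_eq fun τ t => by
    rw [← Nat.forall_lt_succ_right]
    simp only [Nat.lt_succ_iff]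

theorem FS.rst {D : (ℕ → γ) → ℕ → Prop} {Ψ : (ℕ → γ) → ℕ → α} (h : FS Φ) (d : FS D) (g : FS Ψ) :
    FS fun τ => rst Φ (D τ) (Ψ τ) := by
  obtain ⟨S, _, s₀, nx, out, h⟩ := h
  have : FS fun τ : ℕ → Prop × α => MP_c1ff4a_lc.rst Φ (fun t => (τ t).1) fun t => (τ t).2 := by
    refine ⟨S, ‹_›, s₀, fun s a => nx (if a.1 then s₀ else s) a.2,
      fun s a => out (if a.1 then s₀ else s) a.2, fun τ t => ?_⟩
    have key : ∀ t, (if (τ t).1 then s₀ else
        MP_c1ff4a_lc.sc s₀ (fun s a => nx (if a.1 then s₀ else s) a.2) τ t) =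
        MP_c1ff4a_lc.sc s₀ nx (fun s => (τ (Nat.findGreatest (fun t => (τ t).1) t + s)).2)
          (t - Nat.findGreatest (fun t => (τ t).1) t) := fun t => by
      induction t with
      | zero => simp [MP_c1ff4a_lc.sc]
      | succ t ih =>
        have := Nat.findGreatest_le (P := fun t => (τ t).1) t
        rw [Nat.findGreatest_succ]
        split_ifs with a
        · simp [MP_c1ff4a_lc.sc]
        · rw [MP_c1ff4a_lc.sc, ih, Nat.succ_sub this, MP_c1ff4a_lc.sc, Nat.add_sub_cancel' this]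
    beta_reduce
    rw [MP_c1ff4a_lc.rst, h, key, Nat.add_sub_cancel' (Nat.findGreatest_le t)]
  exact this.comp (d.pair g)

theorem rst_eq {D : ℕ → Prop} {τ : ℕ → α} {b t : ℕ} (hb : b ≤ t) (h0 : b = 0 ∨ D b)
    (h1 : ∀ s, b < s → s ≤ t → ¬ D s) : rst Φ D τ t = Φ (fun s => τ (b + s)) (t - b) := by
  have : Nat.findGreatest D t = b :=
    Nat.findGreatest_eq_iff.2 ⟨hb, fun h => h0.resolve_left h, fun s => h1 s⟩
  rw [rst, this]

theorem FS.thin {D : (ℕ → α) → ℕ → Prop} (d : FS D) {B : ℕ} (hB : 0 < B) :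
    FS fun τ => thin B (D τ) := by
  have : NeZero B := ⟨hB.ne'⟩
  refine (d.map₂ (d.sc (0 : ZMod B) fun s a => if a then s + 1 else s)
    fun a s => a ∧ s = 0).of_eq fun τ t => ?_
  have : ∀ t, MP_c1ff4a_lc.sc (0 : ZMod B) (fun s a => if a then s + 1 else s) (D τ) t =
      ((Finset.range t).filter (D τ)).card := fun t => by
    induction t with
    | zero => simp [MP_c1ff4a_lc.sc]
    | succ t ih =>
      rw [MP_c1ff4a_lc.sc, ih, Finset.range_add_one, Finset.filter_insert]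
      split_ifs
      · rw [Finset.card_insert_of_notMem (by simp), Nat.cast_succ]
      · rfl
  rw [this, ZMod.natCast_eq_zero_iff, MP_c1ff4a_lc.thin]

theorem thin_dvd {B m : ℕ} (hm : 0 < m) : thin B (fun t => m ∣ t) = fun t => m * B ∣ t := by
  have key : ∀ k (i : DecidablePred fun t => m ∣ t),
      (@Finset.filter _ (fun t => m ∣ t) i (Finset.range (m * k))).card = k := fun k i => by
    rw [show (Finset.range (m * k)).filter (fun t => m ∣ t) = (Finset.range k).image (m * ·) by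
      ext s
      simp only [Finset.mem_filter, Finset.mem_range, Finset.mem_image]
      exact ⟨fun ⟨a, j, e⟩ => ⟨j, lt_of_mul_lt_mul_left (e ▸ a) m.zero_le, e.symm⟩,
        fun ⟨j, a, e⟩ => e ▸ ⟨Nat.mul_lt_mul_of_pos_left a hm, j, rfl⟩⟩,
      Finset.card_image_of_injective _ (mul_right_injective₀ hm.ne'), Finset.card_range]
  funext t
  refine propext ⟨fun ⟨⟨k, e⟩, h⟩ => ?_, fun ⟨k, e⟩ => ⟨⟨B * k, by rw [e, mul_assoc]⟩, ?_⟩⟩
  · subst e
    rw [key] at h
    exact Nat.mul_dvd_mul_left m h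
  · rw [e, mul_assoc, key]
    exact dvd_mul_right _ _

theorem FS.iter {Φ : (ℕ → α) → ℕ → α} (h : FS Φ) (k : ℕ) : FS Φ^[k] := by
  induction k with
  | zero => exact FS.pt id
  | succ k ih => exact ih.comp h

theorem FS.run {A : Type} {Φ : A → (ℕ → α) → ℕ → α} (h : ∀ a, FS (Φ a)) (w : List A) :
    FS fun τ => run Φ τ w := by
  induction w using List.reverseRecOn with
  | nil => exact FS.pt id
  | append_singleton w a ih => simpa only [run_snoc] using (h a).comp ih

theorem FS.list [Finite β] (l : List β) : FS fun (_ : ℕ → α) t => l[t]? := by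
  induction l with
  | nil => exact FS.pt fun _ => none
  | cons b l ih => exact (ih.dl (some b)).of_eq fun _ t => by cases t <;> rfl

end Pool.Agent.P.MP_c1ff4a_lc
end
end

-- part Pool.Agent.P.MP_c1ff4a_lc.Sec
section

/-! The machines that act inside one section: a queue of letters followed by a work area. -/

set_option autoImplicit false

open Classical

noncomputable section

namespace Pool.Agent.P.MP_c1ff4a_lc

variable {A Γ : Type}

/-- appending a letter to the word written at the start of the tape -/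
theorem exists_app [Finite A] (a : A) : ∃ P : (ℕ → Option A) → ℕ → Option A, FS P ∧
    ∀ (τ : ℕ → Option A) (l : List A), (∀ u ≤ l.length, τ u = l[u]?) →
      P τ = fun u => (l ++ [a])[u]? := by
  refine ⟨_, (FS.pt fun o : Option A => o ≠ none).allLt.ite
      (FS.pt fun o : Option A => if o = none then some a else o) (FS.pt fun _ => none),
    fun τ l h => funext fun u => ?_⟩
  rcases lt_trichotomy u l.length with hu | rfl | hu
  · rw [if_pos (show ∀ s < u, τ s ≠ none from fun s hs => by rw [h s (by omega)]; simp; omega),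
      h u hu.le, if_neg (by simp [hu]), List.getElem?_append_left hu]
  · rw [if_pos (show ∀ s < l.length, τ s ≠ none from fun s hs => by rw [h s hs.le]; simp [hs]),
      h _ le_rfl]
    simp
  · rw [if_neg fun a : ∀ s < u, τ s ≠ none => a _ hu (by rw [h _ le_rfl]; simp)]
    exact (List.getElem?_eq_none (by simp; omega)).symm

/-- running the sweep chosen on the first `m` positions over the remaining positions -/
theorem exists_aft [Finite A] [Finite Γ] {Φ : A → (ℕ → Γ) → ℕ → Γ} (hΦ : ∀ a, FS (Φ a)) :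
    ∃ P : (ℕ → Prop × Option A × Γ) → ℕ → Γ, FS P ∧
      ∀ (τ : ℕ → Prop × Option A × Γ) (m : ℕ), (∀ u, (τ u).1 ↔ u < m) →
        (∀ u < m, P τ u = (τ u).2.2) ∧
        ((∀ u < m, (τ u).2.1 = none) → ∀ u, P τ u = (τ u).2.2) ∧
        ∀ s < m, ∀ a, (τ s).2.1 = some a → (∀ u, s < u → u < m → (τ u).2.1 = none) →
          ∀ u, P τ (m + u) = Φ a (fun v => (τ (m + v)).2.2) u := by
  obtain ⟨nx, hnx⟩ : ∃ nx : Option A → Prop × Option A × Γ → Option A,
    nx = fun s c => if c.1 ∧ c.2.1 ≠ none then c.2.1 else s := ⟨_, rfl⟩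
  have h1 : FS fun τ : ℕ → Prop × Option A × Γ => sc none nx τ := (FS.pt id).sc none nx
  have h2 := FS.pi fun a => (hΦ a).rst ((FS.pt fun c : Prop × Option A × Γ => c.1).dl True)
    (FS.pt fun c : Prop × Option A × Γ => c.2.2)
  refine ⟨_, (FS.pt fun c : Prop × Option A × Γ => c.1).ite (FS.pt fun c => c.2.2)
    ((h1.pair (FS.pt fun c => c.2.2)).map₂ h2 fun q f => q.1.elim q.2 f), fun τ m h => ?_⟩
  have e1 : ∀ s v o, sc none nx τ s = o → (∀ u, s ≤ u → u < m → (τ u).2.1 = none) →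
      sc none nx τ (s + v) = o := fun s v o a b => by
    induction v with
    | zero => exact a
    | succ v ih =>
      rw [← add_assoc, sc, ih, hnx]
      exact if_neg fun c => c.2 (b _ (by omega) ((h _).1 c.1))
  refine ⟨fun u hu => if_pos ((h u).2 hu), fun a u => ?_, fun s hs a h1 h2 u => ?_⟩
  · have := e1 0 u none rfl fun u _ => a u
    rw [zero_add] at this
    simp only [this]
    split_ifs <;> rfl
  · have := e1 (s + 1) (m + u - (s + 1)) (some a) (by
      rw [sc, hnx]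
      exact (if_pos ⟨(h s).2 hs, by simp [h1]⟩).trans h1) fun u hu => h2 u hu
    rw [show s + 1 + (m + u - (s + 1)) = m + u by omega] at this
    simp only [this]
    rw [if_neg (by rw [h]; omega), Option.elim_some, rst_eq (b := m) (Nat.le_add_right _ _),
      Nat.add_sub_cancel_left]
    · obtain ⟨m, rfl⟩ : ∃ k, m = k + 1 := ⟨m - 1, by omega⟩
      exact Or.inr ((h m).2 m.lt_succ_self)
    · rintro (_ | v) b1 b2
      · omega
      · exact fun c => by have := (h v).1 c; omega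

/-- section symbols -/
@[ext] structure Sec (A Γ : Type) where
  V : Option A
  Dn : Prop
  W : Γ

instance [Finite A] [Finite Γ] : Finite (Sec A Γ) :=
  Finite.of_injective (fun l : Sec A Γ => (l.V, l.Dn, l.W)) fun a b h => by
    simp only [Prod.mk.injEq] at h
    exact Sec.ext h.1 h.2.1 h.2.2

/-- the content of a section with queue `l` of which `r` letters are processed -/
def ide (Φ : A → (ℕ → Γ) → ℕ → Γ) (γ₀ : Γ) (m : ℕ) (l : List A) (r u : ℕ) : Sec A Γ where
  V := l[u]?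
  Dn := u < r
  W := if u < m then γ₀ else run Φ (fun _ => γ₀) (l.take r) (u - m)

variable [Finite A] [Finite Γ] {Φ : A → (ℕ → Γ) → ℕ → Γ}

omit [Finite Γ] in
/-- sections that are not active -/
theorem exists_un (Φ : A → (ℕ → Γ) → ℕ → Γ) (γ₀ : Γ) (x a : A) (d : ℕ) :
    ∃ P : (ℕ → Sec A Γ) → ℕ → Sec A Γ, FS P ∧ ∀ (τ : ℕ → Sec A Γ) (l : List A) (m : ℕ),
      (∀ u ≤ l.length, (τ u).V = l[u]?) →
        P τ = ide Φ γ₀ m (List.replicate d x ++ (l ++ [a])) 0 := by
  obtain ⟨P, p1, p2⟩ := exists_app a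
  have h1 : FS fun τ : ℕ → Option A => dl (some x) τ := (FS.pt id).dl _
  have h2 : ∀ (l : List A) (d : ℕ), (fun τ : ℕ → Option A => dl (some x) τ)^[d] (fun u => l[u]?) =
      fun u => (List.replicate d x ++ l)[u]? := fun l d => by
    induction d with
    | zero => rfl
    | succ d ih =>
      rw [Function.iterate_succ_apply', ih]
      funext u
      cases u <;> rfl
  refine ⟨_, ((h1.iter d).comp (p1.comp (FS.pt Sec.V))).map fun v => Sec.mk v False γ₀,
    fun τ l m h => funext fun u => ?_⟩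
  simp only [p2 _ l h, h2]
  simp [ide]

/-- one virtual sweep -/
theorem exists_micro (hΦ : ∀ a, FS (Φ a)) (γ₀ : Γ) :
    ∃ P : (ℕ → Prop × Sec A Γ) → ℕ → Prop × Sec A Γ, FS P ∧ ∀ (m : ℕ) (l : List A) (r : ℕ),
      r ≤ l.length → r ≤ m → P (fun u => (u < m, ide Φ γ₀ m l r u)) =
        fun u => (u < m, ide Φ γ₀ m l (min (r + 1) (min l.length m)) u) := by
  obtain ⟨P, p1, p2⟩ := exists_aft hΦ
  have h1 : FS fun (τ : ℕ → Prop × Sec A Γ) u => (∀ s < u, (τ s).2.Dn) ∧ ¬ (τ u).2.Dn ∧ (τ u).1 ∧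
      (τ u).2.V ≠ none := (FS.pt fun c : Prop × Sec A Γ => c.2.Dn).allLt.map₂
    (FS.pt fun c : Prop × Sec A Γ => ¬ c.2.Dn ∧ c.1 ∧ c.2.V ≠ none) And
  have h2 := h1.pair (FS.pt id)
  refine ⟨_, h2.map₂ (p1.comp (h2.map fun q => (q.2.1, if q.1 then q.2.2.V else none, q.2.2.W)))
    fun q W => (q.2.1, Sec.mk q.2.2.V (q.2.2.Dn ∨ q.1) W), fun m l r a b => funext fun u => ?_⟩
  have go : ∀ u, ((∀ s < u, (ide Φ γ₀ m l r s).Dn) ∧ ¬ (ide Φ γ₀ m l r u).Dn ∧ u < m ∧
      (ide Φ γ₀ m l r u).V ≠ none) ↔ u = r ∧ r < m ∧ r < l.length := fun u => by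
    simp only [ide, ne_eq, List.getElem?_eq_none_iff, not_le, not_lt]
    refine ⟨fun ⟨c1, c2, c3, c4⟩ => ?_, fun ⟨c1, c2, c3⟩ => by subst c1; simp [c2, c3]⟩
    have := c1 r
    omega
  simp only [id, go]
  obtain ⟨q1, q2, q3⟩ := p2 (fun u => (u < m, if u = r ∧ r < m ∧ r < l.length then
    (ide Φ γ₀ m l r u).V else none, (ide Φ γ₀ m l r u).W)) m fun _ => Iff.rfl
  refine Prod.ext rfl (Sec.ext rfl (propext (by simp only [ide]; omega)) ?_)
  show P _ u = _
  by_cases c : r < m ∧ r < l.length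
  · rw [show min (r + 1) (min l.length m) = r + 1 by omega]
    rcases lt_or_ge u m with d | d
    · rw [q1 u d]
      simp [ide, d]
    · obtain ⟨u, rfl⟩ := Nat.exists_eq_add_of_le d
      rw [q3 r c.1 l[r] (by simp [ide, c]) fun u h _ => if_neg (by omega)]
      simp only [ide, add_lt_iff_neg_left, not_lt_zero, if_false, Nat.add_sub_cancel_left]
      rw [← List.take_append_getElem c.2, run_snoc]
  · rw [show min (r + 1) (min l.length m) = r by omega, q2 fun u _ => if_neg (by tauto)]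

/-- active sections -/
theorem exists_ac (hΦ : ∀ a, FS (Φ a)) (γ₀ : Γ) (acc : Set Γ) (a : A) :
    ∃ P : (ℕ → Prop × Sec A Γ) → ℕ → Sec A Γ × Prop, FS P ∧ ∀ (m : ℕ) (l : List A) (r : ℕ),
      r ≤ l.length → r ≤ m → P (fun u => (u < m, ide Φ γ₀ m l r u)) = fun u =>
        (ide Φ γ₀ m (l ++ [a]) (min (r + 4) (min (l.length + 1) m)) u,
          m ≤ u ∧ l.length + 1 ≤ min (r + 4) m ∧
            run Φ (fun _ => γ₀) (l ++ [a]) (u - m) ∈ acc) := by
  obtain ⟨P, p1, p2⟩ := exists_app a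
  obtain ⟨M, m1, m2⟩ := exists_micro hΦ γ₀
  have h1 := (m1.iter 4).comp ((FS.pt id).map₂ (p1.comp (FS.pt fun c : Prop × Sec A Γ => c.2.V))
    fun c v => (c.1, Sec.mk v c.2.Dn c.2.W))
  refine ⟨_, h1.map₂ (h1.map fun c => c.2.V ≠ none → c.2.Dn).allLe
    fun c b => (c.2, ¬ c.1 ∧ b ∧ c.2.W ∈ acc), fun m l r a1 a2 => funext fun u => ?_⟩
  have e1 : (fun u => (u < m, Sec.mk (P (fun u => (ide Φ γ₀ m l r u).V) u) (ide Φ γ₀ m l r u).Dn
      (ide Φ γ₀ m l r u).W)) = fun u => (u < m, ide Φ γ₀ m (l ++ [a]) r u) := by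
    rw [p2 (fun u => (ide Φ γ₀ m l r u).V) l fun _ _ => rfl]
    simp only [ide, List.take_append_of_le_length a1]
  have e2 : ∀ k, M^[k] (fun u => (u < m, ide Φ γ₀ m (l ++ [a]) r u)) =
      fun u => (u < m, ide Φ γ₀ m (l ++ [a]) (min (r + k) (min (l.length + 1) m)) u) := fun k => by
    induction k with
    | zero => rw [show min (r + 0) (min (l.length + 1) m) = r by omega]; rfl
    | succ k ih =>
      rw [Function.iterate_succ_apply', ih, m2 _ _ _ (by simp) (by omega), List.length_append,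
        List.length_singleton]
      funext u
      congr 2
      omega
  simp only [id, e1, e2]
  refine Prod.ext rfl (propext (and_congr not_lt Iff.rfl |>.trans (and_congr_right fun hu => ?_)))
  have e3 : (∀ s ≤ u, (ide Φ γ₀ m (l ++ [a]) (min (r + 4) (min (l.length + 1) m)) s).V ≠ none →
      (ide Φ γ₀ m (l ++ [a]) (min (r + 4) (min (l.length + 1) m)) s).Dn) ↔
      l.length + 1 ≤ min (r + 4) m := by
    simp only [ide, ne_eq, List.getElem?_eq_none_iff, List.length_append, List.length_singleton]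
    refine ⟨fun h => ?_, fun h s _ _ => by omega⟩
    have := h (min (r + 4) (min (l.length + 1) m)) (by omega)
    omega
  rw [e3]
  refine and_congr_right fun h => ?_
  simp only [ide]
  rw [if_neg (by omega), List.take_of_length_le (by simp; omega)]

end Pool.Agent.P.MP_c1ff4a_lc
end
end

-- part Pool.Agent.P.MP_c1ff4a_lc.Conv
section

/-! Arrays and sweeps. -/

set_option autoImplicit false

open Classical

noncomputable section

namespace Pool.Agent.P.MP_c1ff4a_lc

variable {σ Γ : Type}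

theorem OLCA.length_cfg (N : OLCA σ) (w : List σ) (t : ℕ) : (N.cfg w t).length = w.length := by
  induction t with
  | zero => simp [OLCA.cfg]
  | succ t ih => simp [OLCA.cfg, ih]

theorem OLCA.not_acc_nil (N : OLCA σ) (t : ℕ) : ¬ N.AccAt [] t := by
  rintro ⟨q, -, h⟩
  rw [List.length_eq_zero_iff.1 (N.length_cfg [] t)] at h
  simp at h

lemma Conv_zip {Q : Type} (δ : Option Q → Q → Q) (q : Q) (l : List Q) : ∀ o : Option Q,
    List.zipWith δ (o :: (l ++ [q]).map some) (l ++ [q]) =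
      List.zipWith δ (o :: l.map some) l ++ [δ (l.getLast?.or o) q] := by
  induction l with
  | nil => simp
  | cons a l ih =>
    intro o
    have := ih (some a)
    simp only [List.cons_append, List.map_cons, List.zipWith_cons_cons] at this ⊢
    rw [this, List.getLast?_cons]
    cases l.getLast? <;> simp

theorem OLCA.cfg_snoc (N : OLCA σ) (w : List σ) (a : σ) (t : ℕ) : N.cfg (w ++ [a]) t =
    N.cfg w t ++ [sc (N.ι a) (fun s x => N.δ x s) (fun s => (N.cfg w s).getLast?) t] := by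
  induction t with
  | zero => simp [OLCA.cfg, sc]
  | succ t ih => rw [OLCA.cfg, ih, Conv_zip, Option.or_none]; rfl

lemma OLIA.step_map (M : OLIA σ) (x : Option σ) (f g : ℕ → M.Q) (h0 : g 0 = M.δ₁ x (f 0))
    (h : ∀ i, g (i + 1) = M.δ (f i) (f (i + 1))) (n : ℕ) :
    M.step x ((List.range n).map f) = (List.range n).map g := by
  cases n with
  | zero => rfl
  | succ n =>
    rw [List.range_succ_eq_map, List.map_cons, List.map_cons, OLIA.step, h0]
    congr 1
    refine List.ext_getElem (by simp) fun i h1 h2 => ?_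
    cases i <;> simp [h]

lemma OLIA.cfg_eq (M : OLIA σ) (w : List σ) (f : ℕ → ℕ → M.Q) (h : ∀ i, f 0 i = M.q₀)
    (h0 : ∀ t, f (t + 1) 0 = M.δ₁ w[t]? (f t 0))
    (h1 : ∀ t i, f (t + 1) (i + 1) = M.δ (f t i) (f t (i + 1))) (t : ℕ) :
    M.cfg w t = (List.range w.length).map (f t) := by
  induction t with
  | zero => rw [funext h]; simp [OLIA.cfg]
  | succ t ih => rw [OLIA.cfg, ih, M.step_map _ _ _ (h0 t) (h1 t)]

lemma OLIA.acc_iff (M : OLIA σ) {w : List σ} {f : ℕ → M.Q} {t k : ℕ} (hk : w.length = k + 1)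
    (h : M.cfg w t = (List.range w.length).map f) : M.AccAt w t ↔ f k ∈ M.F := by
  simp [OLIA.AccAt, h, hk, List.range_succ]

theorem OLIA.not_acc_nil (M : OLIA σ) (t : ℕ) : ¬ M.AccAt [] t := by
  have : ∀ t, M.cfg [] t = [] := fun t => by
    induction t with
    | zero => rfl
    | succ t ih => rw [OLIA.cfg, ih]; rfl
  rintro ⟨q, -, h⟩
  simp [this] at h

/-- an `OLCA` as a family of sweeps -/
theorem OLCA.sweep (N : OLCA σ) : ∃ Φ : σ → (ℕ → Option N.Q) → ℕ → Option N.Q, (∀ a, FS (Φ a)) ∧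
    ∀ w t, N.AccAt w t ↔ run Φ (fun _ => none) w t ∈ some '' N.F := by
  have := N.fin
  refine ⟨fun a τ t => some (sc (N.ι a) (fun s x => N.δ x s) τ t),
    fun a => ((FS.pt id).sc _ _).map some, fun w t => ?_⟩
  have : ∀ w : List σ, run (fun a τ t => some (sc (N.ι a) (fun s x => N.δ x s) τ t))
      (fun _ => none) w = fun s => (N.cfg w s).getLast? := fun w => by
    induction w using List.reverseRecOn with
    | nil => exact funext fun s => by rw [List.length_eq_zero_iff.1 (N.length_cfg [] s)]; rfl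
    | append_singleton w a ih => funext s; rw [run_snoc, ih, N.cfg_snoc]; simp
  rw [this]
  exact exists_congr fun q => and_congr_right fun _ => eq_comm

/-- an `OLIA` as a first sweep followed by equal sweeps -/
theorem OLIA.sweep (M : OLIA σ) : ∃ (Ψ₁ : (ℕ → Option σ) → ℕ → M.Q) (Ψ : (ℕ → M.Q) → ℕ → M.Q),
    FS Ψ₁ ∧ FS Ψ ∧ (∀ τ k t, t ≤ k → Ψ^[k] (Ψ₁ τ) t = M.q₀) ∧
    ∀ w k t, w.length = k + 1 → (M.AccAt w t ↔ Ψ^[k] (Ψ₁ fun s => w[s]?) t ∈ M.F) := by
  have := M.fin
  refine ⟨sc M.q₀ fun s x => M.δ₁ x s, sc M.q₀ fun s x => M.δ x s, (FS.pt id).sc _ _,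
    (FS.pt id).sc _ _, fun τ k => ?_, fun w k t hk => M.acc_iff (f := fun i =>
      (sc M.q₀ fun s x => M.δ x s)^[i] (sc M.q₀ (fun s x => M.δ₁ x s) fun s => w[s]?) t) hk (M.cfg_eq w
      (fun t i => (sc M.q₀ fun s x => M.δ x s)^[i] (sc M.q₀ (fun s x => M.δ₁ x s) fun s => w[s]?) t)
      (fun i => ?_) (fun _ => rfl) (fun t i => ?_) t)⟩
  · induction k with
    | zero => exact fun t h => by rw [Nat.le_zero.1 h]; rfl
    | succ k ih =>
      intro t h
      rw [Function.iterate_succ_apply']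
      induction t with
      | zero => rfl
      | succ t it => rw [sc, it (by omega), ih t (by omega), M.quiet]
  · cases i with
    | zero => rfl
    | succ i => rw [Function.iterate_succ_apply']; rfl
  · simp only [Function.iterate_succ_apply', sc]

/-- the first acceptance happens before a configuration repeats -/
theorem OLCA.first (N : OLCA σ) {w : List σ} {t : ℕ} (h : N.AccAt w t) :
    ∃ t₀ ≤ t, t₀ < Nat.card N.Q ^ w.length ∧ N.AccAt w t₀ := by
  have := N.fin
  have hh : ∃ t, N.AccAt w t := ⟨t, h⟩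
  have e : ∀ s s' d, N.cfg w s = N.cfg w s' → N.cfg w (s + d) = N.cfg w (s' + d) :=
    fun s s' d a => by
      induction d with
      | zero => exact a
      | succ d ih => rw [← add_assoc, ← add_assoc, OLCA.cfg, OLCA.cfg, ih]
  have k : ∀ s s', s < s' → s' ≤ Nat.find hh → N.cfg w s ≠ N.cfg w s' := fun s s' a b c => by
    have := e s s' (Nat.find hh - s') c
    rw [Nat.add_sub_cancel' b] at this
    refine Nat.find_min hh (m := s + (Nat.find hh - s')) (by omega) ?_
    rw [OLCA.AccAt, this]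
    exact Nat.find_spec hh
  refine ⟨_, Nat.find_min' hh h, ?_, Nat.find_spec hh⟩
  have := Fintype.ofFinite N.Q
  have := Fintype.card_le_of_injective (β := List.Vector N.Q w.length)
    (fun s : Fin (Nat.find hh + 1) => ⟨N.cfg w s, N.length_cfg w s⟩) fun s s' a => by
      have a := congrArg Subtype.val a
      rcases lt_trichotomy s s' with b | b | b
      · exact absurd a (k _ _ b (by omega))
      · exact b
      · exact absurd a.symm (k _ _ b (by omega))
  rwa [card_vector, Fintype.card_fin, ← Nat.card_eq_fintype_card] at this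

/-- renaming the letters -/
theorem OLCA.comap (N : OLCA Γ) (f : σ ↪ Γ) :
    ∃ N' : OLCA σ, ∀ w t, N'.AccAt w t ↔ N.AccAt (w.map f) t := by
  refine ⟨⟨N.Q, N.fin, f.trans N.ι, N.δ, N.F⟩, fun w t => ?_⟩
  have : OLCA.cfg ⟨N.Q, N.fin, f.trans N.ι, N.δ, N.F⟩ w t = N.cfg (w.map f) t := by
    induction t with
    | zero => simp [OLCA.cfg]
    | succ t ih => rw [OLCA.cfg, OLCA.cfg, ih]
  rw [OLCA.AccAt, this]
  rfl

/-- the trivial case -/
theorem OLIA.trivial [Finite σ] (M : OLIA σ) (h : M.q₀ ∈ M.F) :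
    ∃ N : OLCA σ, N.lang = M.lang ∧ N.Time fun _ => 0 := by
  obtain ⟨N, hN⟩ : ∃ N : OLCA σ, ∀ w, w ≠ [] → N.AccAt w 0 :=
    ⟨⟨σ, ‹_›, Function.Embedding.refl _, fun _ q => q, Set.univ⟩, fun w hw =>
      ⟨w.getLast hw, Set.mem_univ _, by simp [OLCA.cfg, List.getLast?_eq_some_getLast hw]⟩⟩
  have a : ∀ w ∈ N.lang, w ≠ [] := fun w ⟨t, h⟩ e => N.not_acc_nil t (e ▸ h)
  refine ⟨N, Set.ext fun w => ⟨fun b => ⟨0, M.q₀, h, ?_⟩, fun ⟨t, b⟩ =>
    ⟨0, hN w fun e => M.not_acc_nil t (e ▸ b)⟩⟩, fun w b => ⟨0, le_rfl, hN w (a w b)⟩⟩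
  simp [OLIA.cfg, List.getLast?_replicate, a w b]

theorem OLIA.le_of_acc (M : OLIA σ) (h : M.q₀ ∉ M.F) {w : List σ} {t : ℕ} (ht : M.AccAt w t) :
    w.length ≤ t := by
  obtain ⟨Ψ₁, Ψ, -, -, a, b⟩ := M.sweep
  by_contra c
  obtain ⟨k, hk⟩ : ∃ k, w.length = k + 1 := ⟨w.length - 1, by omega⟩
  exact h (a _ k t (by omega) ▸ (b w k t hk).1 ht)

end Pool.Agent.P.MP_c1ff4a_lc
end
end

-- part Pool.Agent.P.MP_c1ff4a_lc.Conv2
section

/-! Sweeps as arrays. -/

set_option autoImplicit false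

open Classical

noncomputable section

namespace Pool.Agent.P.MP_c1ff4a_lc

variable {σ Γ : Type}

/-- sweeps as an `OLCA` -/
theorem exists_olca [Finite σ] [Finite Γ] {Ψ : (ℕ → Unit) → ℕ → Γ} (hΨ : FS Ψ)
    {Φ : σ → (ℕ → Γ) → ℕ → Γ} (hΦ : ∀ a, FS (Φ a)) (acc : Set Γ) : ∃ N : OLCA σ, ∀ w t,
      N.AccAt w t ↔ w ≠ [] ∧ ∃ u, t = w.length + u ∧ run Φ (Ψ fun _ => ()) w u ∈ acc := by
  obtain ⟨S, _, s₀, nx, out, h⟩ := FS.pi fun a => (FS.pt fun o : Option Γ => o = none).ite
    ((hΦ a).comp (hΨ.comp (FS.pt fun _ => ())))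
    ((hΦ a).comp (FS.pt fun o : Option Γ => o.getD (Ψ (fun _ => ()) 0)))
  obtain ⟨pj, hp⟩ : ∃ pj : Option (σ × Option (S × Γ)) → Option (Option Γ),
    pj = fun x => x.elim (some none) fun q => q.2.map fun p => some p.2 := ⟨_, rfl⟩
  obtain ⟨δ, hδ⟩ : ∃ δ : Option (σ × Option (S × Γ)) → σ × Option (S × Γ) → σ × Option (S × Γ),
    δ = fun x q => (pj x).elim q fun g =>
      (q.1, some (nx (q.2.elim s₀ Prod.fst) g, out (q.2.elim s₀ Prod.fst) g q.1)) := ⟨_, rfl⟩
  let N : OLCA σ := ⟨σ × Option (S × Γ), inferInstance,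
    ⟨fun a => (a, none), fun _ _ e => congrArg Prod.fst e⟩, δ,
    {q | ∃ g ∈ acc, pj (some q) = some (some g)}⟩
  have key : ∀ w : List σ, (∀ t < w.length, pj (N.cfg w t).getLast? = none) ∧
      ∀ u, pj (N.cfg w (w.length + u)).getLast? =
        some (if w = [] then none else some (run Φ (Ψ fun _ => ()) w u)) := fun w => by
    induction w using List.reverseRecOn with
    | nil =>
      refine ⟨by simp, fun u => ?_⟩
      rw [List.length_eq_zero_iff.1 (N.length_cfg [] _), hp]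
      rfl
    | append_singleton w a ih =>
      obtain ⟨G, hG⟩ : ∃ G : ℕ → Option Γ,
        G = fun u => if w = [] then none else some (run Φ (Ψ fun _ => ()) w u) := ⟨_, rfl⟩
      obtain ⟨z, hz⟩ : ∃ z : ℕ → σ × Option (S × Γ),
        z = sc (a, none) (fun s x => δ x s) fun s => (N.cfg w s).getLast? := ⟨_, rfl⟩
      have e0 : ∀ t, (N.cfg (w ++ [a]) t).getLast? = some (z t) := fun t => by
        rw [N.cfg_snoc, List.getLast?_concat, hz]
        rfl
      have e1 : ∀ t, z (t + 1) = δ (N.cfg w t).getLast? (z t) := fun t => by rw [hz]; rfl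
      have e2 : ∀ t ≤ w.length, z t = (a, none) := fun t ht => by
        induction t with
        | zero => rw [hz]; rfl
        | succ t it => rw [e1, hδ]; simp only [ih.1 t ht, it (by omega), Option.elim_none]
      have e3 : ∀ u, z (w.length + u + 1) =
          (a, some (sc s₀ nx G (u + 1), out (sc s₀ nx G u) (G u) a)) := fun u => by
        induction u with
        | zero => rw [e1, hδ, e2 _ le_rfl, hG]; beta_reduce; erw [ih.2 0]; rfl
        | succ u iu => rw [e1, hδ]; beta_reduce; rw [ih.2, ← add_assoc, iu, hG]; rfl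
      simp only [e0, List.length_append, List.length_singleton]
      refine ⟨fun t ht => by rw [e2 t (by omega), hp]; rfl, fun u => ?_⟩
      rw [add_right_comm, e3, ← congrFun (h G u) a, hp, if_neg (List.concat_ne_nil a w), run_snoc, hG]
      by_cases c : w = [] <;> simp [c]
  refine ⟨N, fun w t => ⟨fun ⟨q, ⟨g, a, b⟩, c⟩ => ?_, fun ⟨a, u, b, c⟩ => ?_⟩⟩
  · rw [← c] at b
    obtain ⟨u, rfl⟩ := Nat.exists_eq_add_of_le (m := w.length) (n := t)
      (not_lt.1 fun d => by simp [(key w).1 t d] at b)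
    rw [(key w).2] at b
    by_cases d : w = []
    · simp [d] at b
    · simp only [if_neg d, Option.some.injEq] at b
      exact ⟨d, u, rfl, b ▸ a⟩
  · have := (key w).2 u
    rw [if_neg a, ← b] at this
    cases e : (N.cfg w t).getLast? with
    | none => simp [e, hp] at this
    | some q => exact ⟨q, ⟨_, c, e ▸ this⟩, e⟩

/-- sweeps as an `OLIA` -/
theorem exists_olia [Finite Γ] (e : Option σ → Γ) {Ψ : (ℕ → Γ) → ℕ → Γ} (hΨ : FS Ψ)
    (acc : Set Γ) : ∃ M : OLIA σ, ∀ w t, M.AccAt w t ↔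
      w ≠ [] ∧ ∃ u, t = w.length + u ∧ Ψ^[w.length] (fun s => e w[s]?) u ∈ acc := by
  obtain ⟨S, _, s₀, nx, out, h⟩ := hΨ
  obtain ⟨st, hs⟩ : ∃ st : Γ → Option (S × Γ) → Option (S × Γ), st = fun g q =>
    some (nx (q.elim s₀ Prod.fst) g, out (q.elim s₀ Prod.fst) g) := ⟨_, rfl⟩
  let M : OLIA σ := ⟨Option (S × Γ), inferInstance, none, fun x => st (e x),
    fun l q => l.bind fun p => st p.2 q, rfl, {q | ∃ p, q = some p ∧ p.2 ∈ acc}⟩
  refine ⟨M, fun w t => ?_⟩
  rcases w.eq_nil_or_concat' with rfl | ⟨v, a, hw⟩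
  · simpa using M.not_acc_nil t
  obtain ⟨k, hk⟩ : ∃ k, w.length = k + 1 := ⟨v.length, by simp [hw]⟩
  obtain ⟨f, hf⟩ : ∃ f : ℕ → ℕ → Option (S × Γ), f = fun t i => if t ≤ i then none else
    some (sc s₀ nx (Ψ^[i] fun s => e w[s]?) (t - i), Ψ^[i + 1] (fun s => e w[s]?) (t - (i + 1))) :=
    ⟨_, rfl⟩
  have e1 : ∀ t i, (f t i).elim s₀ Prod.fst = sc s₀ nx (Ψ^[i] fun s => e w[s]?) (t - i) :=
    fun t i => by
      rw [hf]
      beta_reduce
      split_ifs with c
      · rw [Nat.sub_eq_zero_of_le c]; rfl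
      · rfl
  have e2 : ∀ t i, i ≤ t → f (t + 1) i = st (Ψ^[i] (fun s => e w[s]?) (t - i)) (f t i) :=
    fun t i c => by
      rw [hs]
      beta_reduce
      rw [e1, ← h, hf]
      beta_reduce
      rw [if_neg (by omega), Nat.succ_sub c, Nat.succ_sub_succ, Function.iterate_succ_apply']
      rfl
  rw [M.acc_iff hk (M.cfg_eq w f (fun i => by simp [hf, M]) (fun t => e2 t 0 t.zero_le)
    (fun t i => ?_) t)]
  · simp only [hf, M, Set.mem_ofPred_eq, hk]
    refine ⟨fun ⟨p, a, b⟩ => ⟨by simp [hw], t - (k + 1), ?_⟩, fun ⟨_, u, a, b⟩ => ?_⟩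
    · split_ifs at a with c
      cases a
      exact ⟨by omega, b⟩
    · subst a
      exact ⟨_, if_neg (by omega), by rwa [Nat.add_sub_cancel_left]⟩
  · rcases le_or_gt t i with c | c
    · simp [hf, M, c]
    · rw [e2 t (i + 1) c, show f t i = some _ by rw [hf]; exact if_neg c.not_ge]
      rfl

end Pool.Agent.P.MP_c1ff4a_lc
end
end

-- part Pool.Agent.P.MP_c1ff4a_lc.Rev
section

/-! Reversing the input. -/

set_option autoImplicit false

open Classical

noncomputable section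

namespace Pool.Agent.P.MP_c1ff4a_lc

variable {σ : Type} [Finite σ]

/-- an `OLIA` reverses its input -/
theorem exists_rev (N : OLCA σ) : ∃ M : OLIA σ, ∀ w t,
    M.AccAt w t ↔ ∃ u, t = 2 * w.length + u ∧ N.AccAt w.reverse u := by
  have := N.fin
  obtain ⟨Φ, hΦ, hN⟩ := N.sweep
  obtain ⟨P, hP, hspec⟩ := exists_aft hΦ
  let Ψ : (ℕ → Prop × Option σ × Option N.Q) → ℕ → Prop × Option σ × Option N.Q :=
    fun τ u => ((τ u).1, dl none (fun s => (τ s).2.1) u, P τ u)
  have hΨ : FS Ψ :=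
    (FS.pt fun x : Prop × Option σ × Option N.Q => x.1).pair
      (((FS.pt fun x : Prop × Option σ × Option N.Q => x.2.1).dl none).pair hP)
  obtain ⟨M, hM⟩ := exists_olia (σ := σ) (fun o => (o ≠ none, o, (none : Option N.Q))) hΨ
    {x | x.2.2 ∈ some '' N.F}
  refine ⟨M, fun w t => ?_⟩
  have key : ∀ k ≤ w.length,
      (∀ u, (Ψ^[k] (fun s => (w[s]? ≠ none, w[s]?, (none : Option N.Q))) u).1 ↔ u < w.length) ∧
      (∀ u, (Ψ^[k] (fun s => (w[s]? ≠ none, w[s]?, (none : Option N.Q))) u).2.1 =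
        if k ≤ u then w[u - k]? else none) ∧
      (∀ u < w.length,
        (Ψ^[k] (fun s => (w[s]? ≠ none, w[s]?, (none : Option N.Q))) u).2.2 = none) ∧
      (fun v => (Ψ^[k] (fun s => (w[s]? ≠ none, w[s]?, (none : Option N.Q)))
        (w.length + v)).2.2) = run Φ (fun _ => none) (w.reverse.take k) := by
    intro k
    induction k with
    | zero =>
      intro _
      refine ⟨fun u => by simp, fun u => by simp, fun u _ => rfl, ?_⟩
      rfl
    | succ k ih =>
      intro hk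
      obtain ⟨h1, h2, h3, h4⟩ := ih (by omega)
      rw [Function.iterate_succ_apply']
      generalize Ψ^[k] (fun s => (w[s]? ≠ none, w[s]?, (none : Option N.Q))) = τ at h1 h2 h3 h4
      obtain ⟨s1, -, s3⟩ := hspec τ w.length h1
      refine ⟨h1, fun u => ?_, fun u hu => (s1 u hu).trans (h3 u hu), funext fun v => ?_⟩
      · cases u with
        | zero => simp [Ψ, dl]
        | succ u => simp [Ψ, dl, h2]
      · have hl : k < w.reverse.length := by simpa using hk
        have ha : (τ (w.length - 1)).2.1 = some w.reverse[k] := by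
          rw [h2, if_pos (by omega), List.getElem_reverse, List.getElem?_eq_getElem]
        have := s3 (w.length - 1) (by omega) _ ha (fun u a b => by omega) v
        rw [List.take_succ_eq_append_getElem hl, run_snoc, ← h4]
        exact this
  obtain ⟨-, -, h3, h4⟩ := key w.length le_rfl
  rw [List.take_of_length_le (by simp)] at h4
  rw [hM]
  constructor
  · rintro ⟨-, u, rfl, hu⟩
    have hu' : w.length ≤ u := by
      by_contra hc
      have := h3 u (by omega)
      simp only [Set.mem_ofPred_eq, this] at hu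
      simp at hu
    obtain ⟨v, rfl⟩ := Nat.exists_eq_add_of_le hu'
    refine ⟨v, by omega, (hN _ _).2 ?_⟩
    rw [← h4]
    exact hu
  · rintro ⟨u, rfl, hu⟩
    refine ⟨fun e => ?_, w.length + u, by omega, ?_⟩
    · subst e
      exact N.not_acc_nil u hu
    · have := (hN _ _).1 hu
      rw [← h4] at this
      exact this

end Pool.Agent.P.MP_c1ff4a_lc
end
end
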