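import Pool.Agent.K.MP_c1ff4a_lc.C0

/-! A direct simulation. -/

set_option autoImplicit false

open Classical

noncomputable section

namespace Pool.Agent.P.MP_c1ff4a_lc

variable {σ τ ρ : Type} [Finite σ]

theorem post_run {A : Type} {P : A → (ℕ → Option A) → ℕ → Option A}
    (hP : ∀ a (x : ℕ → Option A) (l : List A), (∀ u ≤ l.length, x u = l[u]?) →
      P a x = fun u => (l ++ [a])[u]?) (l l' : List A) :
    run P (fun u => l[u]?) l' = fun u => (l ++ l')[u]? := by
  induction l' using List.reverseRecOn with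
  | nil => simp
  | append_singleton w a ih =>
    rw [run_snoc, ih, hP a _ (l ++ w) fun _ _ => rfl, List.append_assoc]

/-- the failed checks -/
def postB {Q : Type} (ok : ρ → σ → Prop) (b : ρ) (x : ℕ → Option σ × Prop × Prop × Prop × Q)
    (t : ℕ) : Prop :=
  (x t).2.2.1 ∨ (dl True (fun s => (x s).2.1) t ∧ ¬ (x t).2.1 ∧ ¬ ∃ a, (x t).1 = some a ∧ ok b a)

/-- the sweeps -/
def postS {Q : Type} (P : σ → (ℕ → Option σ) → ℕ → Option σ) (Ψ₁ : (ℕ → Option σ) → ℕ → Q)
    (Ψ : (ℕ → Q) → ℕ → Q) (F : Set Q) (h : τ → List σ) (ok : ρ → σ → Prop) :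
    τ ⊕ ρ → (ℕ → Option σ × Prop × Prop × Prop × Q) → ℕ → Option σ × Prop × Prop × Prop × Q
  | Sum.inl a, x, t => (run P (fun s => (x s).1) (h a) t, (x t).2.1, (x t).2.2.1 ∨ (x t).2.1,
      False, Ψ₁ (run P (fun s => (x s).1) (h a)) t)
  | Sum.inr b, x, t => ((x t).1, dl True (fun s => (x s).2.1) t, postB ok b x t,
      (∀ s ≤ t, ¬ postB ok b x s ∧ ((x s).1 ≠ none → dl True (fun s => (x s).2.1) s)) ∧
        (x t).2.2.2.2 ∈ F, Ψ (fun s => (x s).2.2.2.2) t)

/-- the intended content -/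
def postI {Q : Type} (Ψ₁ : (ℕ → Option σ) → ℕ → Q) (Ψ : (ℕ → Q) → ℕ → Q) (F : Set Q)
    (ok : ρ → σ → Prop) (w : List σ) (v : List ρ) (t : ℕ) : Option σ × Prop × Prop × Prop × Q :=
  (w[t]?, t < v.length, ∃ b, v[t]? = some b ∧ ¬ ∃ a, w[t]? = some a ∧ ok b a,
    v ≠ [] ∧ (∀ s ≤ t, (¬ ∃ b, v[s]? = some b ∧ ¬ ∃ a, w[s]? = some a ∧ ok b a) ∧
      (w[s]? ≠ none → s < v.length)) ∧ Ψ^[v.length - 1] (Ψ₁ fun s => w[s]?) t ∈ F,
    Ψ^[v.length] (Ψ₁ fun s => w[s]?) t)

omit [Finite σ] in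
theorem post_fs {Q : Type} {P : σ → (ℕ → Option σ) → ℕ → Option σ}
    {Ψ₁ : (ℕ → Option σ) → ℕ → Q} {Ψ : (ℕ → Q) → ℕ → Q} (hP : ∀ a, FS (P a)) (h1 : FS Ψ₁)
    (h2 : FS Ψ) (F : Set Q) (h : τ → List σ) (ok : ρ → σ → Prop) (c : τ ⊕ ρ) :
    FS (postS P Ψ₁ Ψ F h ok c) := by
  cases c with
  | inl a =>
    have e := (FS.run hP (h a)).comp
      (FS.pt fun x : Option σ × Prop × Prop × Prop × Q => x.1)
    exact e.pair ((FS.pt fun x => x.2.1).pair ((FS.pt fun x => x.2.2.1 ∨ x.2.1).pair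
      ((FS.pt fun _ => False).pair (h1.comp e))))
  | inr b =>
    have d := (FS.pt fun x : Option σ × Prop × Prop × Prop × Q => x.2.1).dl True
    have e : FS (postB (Q := Q) ok b) := (FS.pt id).map₂ d fun x p =>
      x.2.2.1 ∨ (p ∧ ¬ x.2.1 ∧ ¬ ∃ a, x.1 = some a ∧ ok b a)
    have g := (e.map₂ ((FS.pt fun x => x.1).map₂ d fun y p => y ≠ none → p)
      fun p q => ¬ p ∧ q).allLe
    exact (FS.pt fun x => x.1).pair (d.pair (e.pair
      ((g.map₂ (FS.pt fun x => x.2.2.2.2 ∈ F) And).pair (h2.comp (FS.pt fun x => x.2.2.2.2)))))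

omit [Finite σ] in
theorem post_inl {Q : Type} {P : σ → (ℕ → Option σ) → ℕ → Option σ}
    (hP : ∀ a (x : ℕ → Option σ) (l : List σ), (∀ u ≤ l.length, x u = l[u]?) →
      P a x = fun u => (l ++ [a])[u]?)
    (Ψ₁ : (ℕ → Option σ) → ℕ → Q) (Ψ : (ℕ → Q) → ℕ → Q) (F : Set Q) (h : τ → List σ)
    (ok : ρ → σ → Prop) (a : τ) (w : List σ) :
    postS P Ψ₁ Ψ F h ok (Sum.inl a) (postI Ψ₁ Ψ F ok w []) = postI Ψ₁ Ψ F ok (w ++ h a) [] := by
  funext t
  simp [postS, postI, post_run hP]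

theorem post_dl (n : ℕ) : dl True (fun s => s < n) = fun s => s < n + 1 := by
  funext s
  cases s <;> simp [dl]

omit [Finite σ] in
theorem post_inr {Q : Type} (P : σ → (ℕ → Option σ) → ℕ → Option σ)
    (Ψ₁ : (ℕ → Option σ) → ℕ → Q) (Ψ : (ℕ → Q) → ℕ → Q) (F : Set Q) (h : τ → List σ)
    (ok : ρ → σ → Prop) (b : ρ) (w : List σ) (v : List ρ) :
    postS P Ψ₁ Ψ F h ok (Sum.inr b) (postI Ψ₁ Ψ F ok w v) = postI Ψ₁ Ψ F ok w (v ++ [b]) := by
  have e : ∀ t, postB ok b (postI Ψ₁ Ψ F ok w v) t =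
      ∃ b', (v ++ [b])[t]? = some b' ∧ ¬ ∃ a, w[t]? = some a ∧ ok b' a := fun t => by
    simp only [postB, postI, post_dl, eq_iff_iff]
    rcases lt_trichotomy t v.length with e | e | e
    · rw [List.getElem?_append_left e]
      simp [e]
    · subst e
      simp
    · rw [List.getElem?_eq_none e.le, List.getElem?_eq_none (l := v ++ [b]) (by simp; omega)]
      simp [show ¬ t < v.length + 1 by omega]
  funext t
  simp only [postS, e]
  simp only [postI, post_dl, List.length_append, List.length_singleton, Nat.add_sub_cancel,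
    Function.iterate_succ_apply', ne_eq, List.append_eq_nil_iff, List.cons_ne_nil, and_false,
    not_false_eq_true, true_and]

/-- the input is written first and the nodes are simulated afterwards -/
theorem exists_post [Finite τ] [Finite ρ] (M : OLIA σ) (h0 : M.q₀ ∉ M.F) (h : τ → List σ)
    (ok : ρ → σ → Prop) : ∃ N : OLCA (τ ⊕ ρ),
    (∀ z ∈ N.lang, ∃ (u : List τ) (v : List ρ), z = u.map Sum.inl ++ v.map Sum.inr ∧
      List.Forall₂ ok v (u.flatMap h) ∧ u.flatMap h ∈ M.lang) ∧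
    ∀ (u : List τ) (v : List ρ) (t : ℕ), List.Forall₂ ok v (u.flatMap h) →
      M.AccAt (u.flatMap h) t →
      N.AccAt (u.map Sum.inl ++ v.map Sum.inr) (u.length + v.length + t) := by
  have := M.fin
  choose P hP1 hP2 using fun a : σ => exists_app a
  obtain ⟨Ψ₁, Ψ, h1, h2, h3, h4⟩ := M.sweep
  have h5 : FS fun (x : ℕ → Unit) (t : ℕ) =>
      ((none, False, False, False, Ψ₁ (fun _ => none) t) : Option σ × Prop × Prop × Prop × M.Q) :=
    (h1.comp (FS.pt fun _ : Unit => (none : Option σ))).map fun q => (none, False, False, False, q)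
  obtain ⟨N, hN⟩ := exists_olca h5 (post_fs hP1 h1 h2 M.F h ok) {x | x.2.2.2.1}
  have h6 : (fun t : ℕ => ((none, False, False, False, Ψ₁ (fun _ => none) t) :
      Option σ × Prop × Prop × Prop × M.Q)) = postI Ψ₁ Ψ M.F ok [] [] := by
    funext t
    simp [postI]
  rw [h6] at hN
  have k1 : ∀ u : List τ, run (postS P Ψ₁ Ψ M.F h ok) (postI Ψ₁ Ψ M.F ok [] [])
      (u.map Sum.inl) = postI Ψ₁ Ψ M.F ok (u.flatMap h) [] := fun u => by
    induction u using List.reverseRecOn with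
    | nil => rfl
    | append_singleton u a ih =>
      rw [List.map_append, List.map_singleton, run_snoc, ih, post_inl hP2]
      simp
  have k2 : ∀ (u : List τ) (v : List ρ), run (postS P Ψ₁ Ψ M.F h ok) (postI Ψ₁ Ψ M.F ok [] [])
      (u.map Sum.inl ++ v.map Sum.inr) = postI Ψ₁ Ψ M.F ok (u.flatMap h) v := fun u v => by
    induction v using List.reverseRecOn with
    | nil => simpa using k1 u
    | append_singleton v b ih =>
      rw [List.map_append, List.map_singleton, ← List.append_assoc, run_snoc, ih, post_inr]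
  have k3 : ∀ z : List (τ ⊕ ρ),
      ((run (postS P Ψ₁ Ψ M.F h ok) (postI Ψ₁ Ψ M.F ok [] []) z 0).2.2.1 ∧
        ∀ t, ¬ (run (postS P Ψ₁ Ψ M.F h ok) (postI Ψ₁ Ψ M.F ok [] []) z t).2.2.2.1) ∨
      ∃ (u : List τ) (v : List ρ), z = u.map Sum.inl ++ v.map Sum.inr := fun z => by
    induction z using List.reverseRecOn with
    | nil => exact Or.inr ⟨[], [], rfl⟩
    | append_singleton z c ih =>
      rw [run_snoc]
      rcases ih with ⟨ih, -⟩ | ⟨u, v, rfl⟩
      · left
        cases c with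
        | inl a => exact ⟨Or.inl ih, fun _ => not_false⟩
        | inr b => exact ⟨Or.inl ih, fun t e => (e.1 0 t.zero_le).1 (Or.inl ih)⟩
      · cases c with
        | inl a =>
          cases v with
          | nil => exact Or.inr ⟨u ++ [a], [], by simp⟩
          | cons b v =>
            rw [k2]
            exact Or.inl ⟨Or.inr (Nat.succ_pos _), fun _ => not_false⟩
        | inr b => exact Or.inr ⟨u, v ++ [b], by simp⟩
  refine ⟨N, fun z ⟨t, ht⟩ => ?_, fun u v t a1 a2 => ?_⟩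
  · obtain ⟨-, t, -, ht⟩ := (hN z t).1 ht
    obtain ⟨u, v, rfl⟩ := (k3 z).resolve_left fun e => e.2 t ht
    rw [k2] at ht
    obtain ⟨b1, b2, b3⟩ := ht
    have b4 : 0 < v.length := List.length_pos_iff.2 b1
    have b5 : v.length ≤ t := by
      by_contra e
      rw [h3 _ _ _ (by omega)] at b3
      exact h0 b3
    have b6 : ∀ (s : ℕ) (hs : s < v.length), ∃ a, (u.flatMap h)[s]? = some a ∧ ok v[s] a :=
      fun s hs => by
        by_contra e
        exact (b2 s (by omega)).1 ⟨v[s], List.getElem?_eq_getElem hs, e⟩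
    have b7 : v.length = (u.flatMap h).length := by
      obtain ⟨a, e, -⟩ := b6 (v.length - 1) (by omega)
      have e1 := (List.getElem?_eq_some_iff.1 e).1
      have e2 : (u.flatMap h)[v.length]? = none := by
        by_contra e2
        exact lt_irrefl _ ((b2 _ b5).2 e2)
      have e3 := List.getElem?_eq_none_iff.1 e2
      omega
    refine ⟨u, v, rfl, List.forall₂_iff_get.2 ⟨b7, fun s s1 s2 => ?_⟩, t,
      (h4 _ (v.length - 1) t (by omega)).2 b3⟩
    obtain ⟨a, e, e1⟩ := b6 s s1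
    rw [List.getElem?_eq_getElem s2, Option.some.injEq] at e
    simpa [e] using e1
  · obtain ⟨b7, b6⟩ := List.forall₂_iff_get.1 a1
    have b4 : 0 < v.length := by
      rw [b7, List.length_pos_iff]
      intro e
      exact M.not_acc_nil t (e ▸ a2)
    have b1 : v ≠ [] := List.length_pos_iff.1 b4
    refine (hN _ _).2 ⟨by simp [b1], t, by simp, ?_⟩
    rw [k2]
    refine ⟨b1, fun s _ => ⟨?_, fun e => ?_⟩, (h4 _ (v.length - 1) t (by omega)).1 a2⟩
    · rintro ⟨b, e, e1⟩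
      obtain ⟨s1, rfl⟩ := List.getElem?_eq_some_iff.1 e
      exact e1 ⟨_, List.getElem?_eq_getElem (b7 ▸ s1), by simpa using b6 s s1 (b7 ▸ s1)⟩
    · rw [b7]
      by_contra e1
      exact e (List.getElem?_eq_none_iff.2 (not_lt.1 e1))

end Pool.Agent.P.MP_c1ff4a_lc
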