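import Pool.Agent.K.MP_c1ff4a_lc.C0
import Pool.Agent.K.MP_c1ff4a_lc.C1

-- part Pool.Agent.P.MP_c1ff4a_lc.Lay
section

/-! The layout of the tape: block `j` is `[B^(2j), B^(2j+2))`, cut into sections of length
`B^(j+1)`; at level `e` the blocks `j ≤ e` are finished. -/

set_option autoImplicit false

open Classical

noncomputable section

namespace Pool.Agent.P.MP_c1ff4a_lc

/-- the block of a position -/
def bJ (B t : ℕ) : ℕ := Nat.log (B ^ 2) t

/-- the level at which the section of a position is activated -/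
def bK (B t : ℕ) : ℕ := bJ B t + t / B ^ (bJ B t + 1) - B ^ (bJ B t - 1)

/-- the current length of the section of a position -/
def sl (B e t : ℕ) : ℕ := B ^ (min e (bJ B t) + 1)

/-- the start of the section of a position -/
def bd (B e t : ℕ) : ℕ := t - t % sl B e t

/-- layout symbols -/
@[ext] structure Ly where
  H : Prop
  G : Prop
  D : Prop
  In : Prop
  Fz : Prop
  Act : Prop

instance : Finite Ly :=
  Finite.of_injective (fun l : Ly => (l.H, l.G, l.D, l.In, l.Fz, l.Act)) fun a b h => by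
    simp only [Prod.mk.injEq] at h
    exact Ly.ext h.1 h.2.1 h.2.2.1 h.2.2.2.1 h.2.2.2.2.1 h.2.2.2.2.2

/-- the layout at level `e` -/
def lay (B e t : ℕ) : Ly where
  H := B ^ (e + 1) ∣ t
  G := B ^ (2 * e + 2) ∣ t
  D := sl B e t ∣ t
  In := t % sl B e t < B ^ min e (bJ B t)
  Fz := bJ B t ≤ e
  Act := 1 ≤ bJ B t ∧ bK B t ≤ e

variable {B e t s : ℕ}

theorem bd_le (B e t : ℕ) : bd B e t ≤ t := Nat.sub_le _ _

theorem sub_bd (B e t : ℕ) : t - bd B e t = t % sl B e t :=
  Nat.sub_sub_self (Nat.mod_le _ _)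

lemma sl_pos (hB : 2 ≤ B) (e t : ℕ) : 0 < sl B e t := by unfold sl; positivity

lemma bd_eq (B e t : ℕ) : bd B e t = sl B e t * (t / sl B e t) := by
  have := Nat.div_add_mod t (sl B e t)
  unfold bd
  omega

lemma bJ_lt (hB : 2 ≤ B) (t : ℕ) : t < B ^ (2 * bJ B t + 2) := by
  have := Nat.lt_pow_succ_log_self (b := B ^ 2) (by nlinarith) t
  rwa [← pow_mul] at this

lemma bJ_le (h : 1 ≤ bJ B t) : B ^ (2 * bJ B t) ≤ t := by
  have := Nat.pow_log_le_self (B ^ 2) (x := t) (by rintro rfl; simp [bJ] at h)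
  rwa [← pow_mul] at this

lemma bJ_eq {j : ℕ} (h1 : j = 0 ∨ B ^ (2 * j) ≤ s) (h2 : s < B ^ (2 * j + 2)) :
    bJ B s = j := by
  rcases h1 with rfl | h1
  · exact Nat.log_of_lt h2
  · exact Nat.log_eq_of_pow_le_of_lt_pow (by rwa [← pow_mul]) (by rwa [← pow_mul])

theorem bJ_sec (hB : 2 ≤ B) (h1 : bd B e t ≤ s) (h2 : s < bd B e t + sl B e t) :
    bJ B s = bJ B t := by
  have p := sl_pos hB e t
  rw [bd_eq] at h1 h2
  refine bJ_eq ?_ (h2.trans_le ?_)
  · rcases Nat.eq_zero_or_pos (bJ B t) with h | h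
    · exact Or.inl h
    · obtain ⟨c, hc⟩ : sl B e t ∣ B ^ (2 * bJ B t) := pow_dvd_pow _ (by omega)
      have := bJ_le h
      rw [hc] at this ⊢
      exact Or.inr ((Nat.mul_le_mul_left _
        ((Nat.le_div_iff_mul_le p).2 (by rwa [mul_comm]))).trans h1)
  · obtain ⟨c, hc⟩ : sl B e t ∣ B ^ (2 * bJ B t + 2) := pow_dvd_pow _ (by omega)
    have := bJ_lt hB t
    rw [hc] at this ⊢
    exact Nat.mul_le_mul_left _ (Nat.div_lt_of_lt_mul this)

lemma sl_sec (hB : 2 ≤ B) (h1 : bd B e t ≤ s) (h2 : s < bd B e t + sl B e t) :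
    sl B e s = sl B e t := by rw [sl, bJ_sec hB h1 h2, sl]

lemma div_sec (h1 : bd B e t ≤ s) (h2 : s < bd B e t + sl B e t) :
    s / sl B e t = t / sl B e t := by
  rw [bd_eq] at h1 h2
  exact Nat.div_eq_of_lt_le (by rwa [mul_comm]) (by rwa [Nat.succ_mul, mul_comm])

theorem bd_sec (hB : 2 ≤ B) (h1 : bd B e t ≤ s) (h2 : s < bd B e t + sl B e t) :
    bd B e s = bd B e t := by
  rw [bd_eq B e s, sl_sec hB h1 h2, div_sec h1 h2, ← bd_eq]

theorem bK_sec (hB : 2 ≤ B) (h0 : bJ B t ≤ e) (h1 : bd B e t ≤ s) (h2 : s < bd B e t + sl B e t) :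
    bK B s = bK B t := by
  have := div_sec h1 h2
  rw [sl, min_eq_right h0] at this
  rw [bK, bJ_sec hB h1 h2, this, bK]

theorem lt_bd_add (hB : 2 ≤ B) (e t : ℕ) : t < bd B e t + sl B e t := by
  have := Nat.mod_lt t (sl_pos hB e t)
  unfold bd
  omega

lemma bK_le (hB : 2 ≤ B) (h : 1 ≤ bJ B t) : B ^ (bJ B t - 1) ≤ t / B ^ (bJ B t + 1) := by
  refine (Nat.le_div_iff_mul_le (by positivity)).2 ?_
  rw [← pow_add, show bJ B t - 1 + (bJ B t + 1) = 2 * bJ B t by omega]
  exact bJ_le h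

theorem bJ_le_bK (hB : 2 ≤ B) (h : 1 ≤ bJ B t) : bJ B t ≤ bK B t := by
  have := bK_le hB h
  unfold bK
  omega

theorem sl_succ (h : bJ B t ≤ e) : sl B (e + 1) t = sl B e t := by
  rw [sl, sl, min_eq_right h, min_eq_right (by omega)]

theorem bd_succ (h : bJ B t ≤ e) : bd B (e + 1) t = bd B e t := by
  rw [bd, sl_succ h, bd]

/-- the first part of a new section is an old section -/
theorem bd_coarse (hB : 2 ≤ B) (h : e < bJ B t) {u : ℕ} (hu : u < B ^ (e + 1)) :
    bJ B (bd B (e + 1) t + u) = bJ B t ∧ bd B e (bd B (e + 1) t + u) = bd B (e + 1) t := by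
  have a : sl B (e + 1) t = B ^ (e + 1) * B := by rw [sl, min_eq_left h, pow_succ]
  have b : bJ B (bd B (e + 1) t + u) = bJ B t :=
    bJ_sec hB (Nat.le_add_right _ u) (by rw [a]; nlinarith)
  refine ⟨b, ?_⟩
  rw [bd, sl, b, min_eq_left h.le, bd_eq, a, mul_assoc, Nat.mul_add_mod, Nat.mod_eq_of_lt hu,
    Nat.add_sub_cancel]

theorem rst_lay {α β : Type} (hB : 2 ≤ B) (Φ : (ℕ → α) → ℕ → β) (τ : ℕ → α) (e t : ℕ) :
    rst Φ (fun s => (lay B e s).D) τ t = Φ (fun s => τ (bd B e t + s)) (t - bd B e t) := by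
  have a := lt_bd_add hB e t
  refine rst_eq (bd_le B e t) (Or.inr ?_) fun s h1 h2 h3 => ?_
  · show sl _ _ _ ∣ _
    rw [sl_sec hB le_rfl (by have := bd_le B e t; omega), bd_eq]
    exact dvd_mul_right _ _
  · have b : bd B e s = s := by rw [bd, Nat.mod_eq_zero_of_dvd h3]; rfl
    have := bd_sec hB h1.le (h2.trans_lt a)
    omega

/-- the position with offset `u` in section `k` of block `j` -/
theorem exists_pos (hB : 2 ≤ B) {j k u : ℕ} (hj : 1 ≤ j) (hk : k < B ^ j) (hu : u < B ^ (j + 1)) :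
    ∃ t < B ^ (2 * j + 2), bJ B t = j ∧ bK B t = j + k ∧ ∀ e, j ≤ e → t - bd B e t = u := by
  obtain ⟨i, rfl⟩ := Nat.exists_eq_add_of_le' hj
  have p : 0 < B ^ (i + 1 + 1) := by positivity
  have a : B ^ (i + 1 + 1) * (B ^ i + k) + u < B ^ (2 * (i + 1) + 2) := by
    have : B ^ i + k + 1 ≤ B ^ (i + 1 + 1) := by
      have : 0 < B ^ i := by positivity
      rw [pow_succ] at hk
      rw [pow_succ, pow_succ]
      nlinarith
    rw [show 2 * (i + 1) + 2 = i + 1 + 1 + (i + 1 + 1) by ring, pow_add B (i + 1 + 1)]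
    nlinarith
  have b : bJ B (B ^ (i + 1 + 1) * (B ^ i + k) + u) = i + 1 := bJ_eq (Or.inr (by
    rw [show 2 * (i + 1) = i + 1 + 1 + i by ring, pow_add B (i + 1 + 1), mul_add]; omega)) a
  refine ⟨_, a, b, ?_, fun e he => ?_⟩
  · rw [bK, b, Nat.mul_add_div p, Nat.div_eq_of_lt hu, Nat.add_sub_cancel]
    omega
  · rw [sub_bd, sl, b, min_eq_right he, Nat.mul_add_mod, Nat.mod_eq_of_lt hu]

end Pool.Agent.P.MP_c1ff4a_lc
end
end

-- part Pool.Agent.P.MP_c1ff4a_lc.Lay2
section

/-! The layout is computed by sweeps. -/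

set_option autoImplicit false

open Classical

noncomputable section

namespace Pool.Agent.P.MP_c1ff4a_lc

variable {B : ℕ}

theorem lay2_zero {α : Type} : FS fun (_ : ℕ → α) t => t = 0 :=
  ((FS.pt fun _ : α => False).dl True).of_eq fun _ t => by cases t <;> simp [dl]

/-- no mark at the positions `1, ..., t` -/
theorem lay2_none {α : Type} {P : (ℕ → α) → ℕ → Prop} (h : FS P) :
    FS fun τ t => ∀ s ≤ t, s = 0 ∨ ¬ P τ s :=
  (lay2_zero.map₂ h fun a b => a ∨ ¬ b).allLe

/-- the value at position `0` -/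
theorem lay2_head : FS fun (τ : ℕ → Prop) (_ : ℕ) => τ 0 :=
  ((lay2_zero.map₂ (FS.pt fun a : Prop => a) fun a b => a → b).allLe).of_eq fun τ t =>
    propext ⟨fun h s _ e => e ▸ h, fun h => h 0 (Nat.zero_le _) rfl⟩

theorem lay2_dvd {α : Type} {m : ℕ} (hm : 0 < m) : FS fun (_ : ℕ → α) t => m ∣ t := by
  have h1 : FS fun (_ : ℕ → α) (t : ℕ) => 1 ∣ t :=
    (FS.pt fun _ : α => True).of_eq fun _ t => by simp
  refine (h1.thin hm).of_eq fun _ t => ?_
  rw [thin_dvd Nat.one_pos, Nat.one_mul]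

theorem lay2_lt {m b : ℕ} (hm : 0 < m) (hb : m ∣ b) (t : ℕ) :
    (∀ s ≤ t, s = 0 ∨ ¬ m ∣ b + s) ↔ t < m := by
  constructor
  · intro h
    by_contra h1
    rcases h m (by omega) with h2 | h2
    · omega
    · exact h2 (Nat.dvd_add hb dvd_rfl)
  · intro h s hs
    by_cases h0 : s = 0
    · exact Or.inl h0
    · exact Or.inr fun h1 => absurd (Nat.le_of_dvd (by omega) ((Nat.dvd_add_right hb).1 h1))
        (by omega)

theorem lay2_J (hB : 2 ≤ B) (e t : ℕ) : bJ B t ≤ e ↔ t < B ^ (2 * e + 2) := by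
  have h1 : 1 < B ^ 2 := Nat.one_lt_pow (by norm_num) hB
  have h2 : B ^ (2 * e + 2) = (B ^ 2) ^ (e + 1) := by rw [← pow_mul]; rfl
  rw [h2, bJ]
  rcases Nat.eq_zero_or_pos t with rfl | ht
  · simp only [Nat.log_zero_right, Nat.zero_le, true_iff]
    positivity
  · rw [← Nat.lt_succ_iff, Nat.log_lt_iff_lt_pow h1 ht.ne']

theorem lay2_fz (hB : 2 ≤ B) (e t : ℕ) :
    (∀ s ≤ t, s = 0 ∨ ¬ B ^ (2 * e + 2) ∣ s) ↔ bJ B t ≤ e := by
  rw [lay2_J hB, ← lay2_lt (b := 0) (by positivity) (dvd_zero _)]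
  simp only [Nat.zero_add]

theorem lay2_pow (hB : 2 ≤ B) (j : ℕ) :
    bJ B (B ^ (2 * j + 2)) = j + 1 ∧ bK B (B ^ (2 * j + 2)) = j + 1 := by
  have h1 : bJ B (B ^ (2 * j + 2)) = j + 1 := by
    have h2 := (lay2_J hB (j + 1) (B ^ (2 * j + 2))).2 (Nat.pow_lt_pow_right hB (by omega))
    have h3 := (lay2_J hB j (B ^ (2 * j + 2))).not.2 (lt_irrefl _)
    omega
  refine ⟨h1, ?_⟩
  rw [bK, h1, Nat.pow_div (by omega) (by omega), show 2 * j + 2 - (j + 1 + 1) = j by omega]
  simp

theorem lay2_act (hB : 2 ≤ B) (e t : ℕ) :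
    ((lay B e (bd B (e + 1) t)).Act ∨ dl False (fun s => (lay B e s).Act) (bd B (e + 1) t) ∨
      (¬ (lay B e (bd B (e + 1) t)).Fz ∧ dl False (fun s => (lay B e s).Fz) (bd B (e + 1) t))) ↔
      (lay B (e + 1) t).Act := by
  have hsl : 0 < sl B (e + 1) t := by unfold sl; positivity
  have hJ : bJ B (bd B (e + 1) t) = bJ B t := bJ_sec hB le_rfl (by omega)
  have hK : bJ B t ≤ e + 1 → bK B (bd B (e + 1) t) = bK B t := fun h =>
    bK_sec hB h le_rfl (by omega)
  have hd : sl B (e + 1) t ∣ bd B (e + 1) t := Nat.dvd_sub_mod _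
  have key : ∀ b, bJ B b = bJ B t → (bJ B t ≤ e + 1 → bK B b = bK B t) → sl B (e + 1) t ∣ b →
      (((1 ≤ bJ B b ∧ bK B b ≤ e) ∨ dl False (fun s => 1 ≤ bJ B s ∧ bK B s ≤ e) b ∨
        (¬ bJ B b ≤ e ∧ dl False (fun s => bJ B s ≤ e) b)) ↔ 1 ≤ bJ B t ∧ bK B t ≤ e + 1) := by
    intro b hJ hK hd
    rcases b with _ | c
    · have h0 : bJ B 0 = 0 := by simp [bJ]
      simp only [dl, h0]
      constructor
      · rintro (h | h | h)
        · omega
        · exact h.elim
        · exact h.2.elim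
      · intro h; omega
    simp only [dl]
    have hnew : ∀ j, bJ B c ≤ j → ¬ bJ B (c + 1) ≤ j →
        bJ B (c + 1) = j + 1 ∧ bK B (c + 1) = j + 1 := by
      intro j h1 h2
      rw [lay2_J hB] at h1 h2
      rw [show c + 1 = B ^ (2 * j + 2) by omega]
      exact lay2_pow hB j
    have hmono : bJ B c ≤ bJ B (c + 1) := Nat.log_mono_right (Nat.le_succ c)
    constructor
    · rintro (⟨h1, h2⟩ | ⟨h1, h2⟩ | ⟨h1, h2⟩)
      · have := bJ_le_bK hB h1
        have := hK (by omega)
        omega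
      · have h3 := bJ_le_bK hB h1
        by_cases h4 : bJ B (c + 1) ≤ bJ B c
        · have h5 : bJ B (c + 1) = bJ B c := le_antisymm h4 hmono
          have h6 := hK (by omega)
          have h7 : bK B (c + 1) ≤ bK B c + 1 := by
            rw [bK, bK, h5, Nat.succ_div]
            split_ifs <;> omega
          omega
        · have := hnew _ le_rfl h4
          have := hK (by omega)
          omega
      · have := hnew e h2 h1
        have := hK (by omega)
        omega
    · rintro ⟨h1, h2⟩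
      have h3 := bJ_le_bK hB h1
      have h6 := hK (by omega)
      by_cases h4 : bJ B (c + 1) ≤ bJ B c
      · have h5 : bJ B (c + 1) = bJ B c := le_antisymm h4 hmono
        refine Or.inr (Or.inl ⟨by omega, ?_⟩)
        have h8 : B ^ (bJ B c + 1) ∣ c + 1 := by
          rwa [sl, min_eq_right (by omega), ← hJ, h5] at hd
        have h7 : bK B (c + 1) = bJ B c + (c / B ^ (bJ B c + 1) + 1) - B ^ (bJ B c - 1) := by
          rw [bK, h5, Nat.succ_div, if_pos h8]
        rw [bK]
        omega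
      · have := hnew _ le_rfl h4
        by_cases h9 : bJ B (c + 1) ≤ e
        · exact Or.inl ⟨by omega, by omega⟩
        · exact Or.inr (Or.inr ⟨h9, by omega⟩)
  exact key _ hJ hK hd

theorem lay2_mk {α : Type} {H G D In Fz Act : (ℕ → α) → ℕ → Prop} (h1 : FS H) (h2 : FS G)
    (h3 : FS D) (h4 : FS In) (h5 : FS Fz) (h6 : FS Act) :
    FS fun τ t => (⟨H τ t, G τ t, D τ t, In τ t, Fz τ t, Act τ t⟩ : Ly) :=
  (h1.pair (h2.pair (h3.pair (h4.pair (h5.pair h6))))).map fun p =>
    (⟨p.1, p.2.1, p.2.2.1, p.2.2.2.1, p.2.2.2.2.1, p.2.2.2.2.2⟩ : Ly)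

theorem exists_lay0 (hB : 2 ≤ B) :
    ∃ Λ : (ℕ → Unit) → ℕ → Ly, FS Λ ∧ Λ (fun _ => ()) = lay B 0 := by
  have h1 : FS fun (_ : ℕ → Unit) t => B ∣ t := lay2_dvd (by omega)
  have h2 : FS fun (_ : ℕ → Unit) t => B ^ (2 * 0 + 2) ∣ t := lay2_dvd (by positivity)
  refine ⟨_, lay2_mk h1 h2 h1 h1 (lay2_none h2) (FS.pt fun _ => False), funext fun t => ?_⟩
  refine Ly.ext ?_ rfl ?_ ?_ (propext (lay2_fz hB 0 t)) ?_
  · simp [lay]
  · simp [lay, sl]
  · simp [lay, sl, Nat.dvd_iff_mod_eq_zero]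
  · refine propext ⟨False.elim, fun h => ?_⟩
    have h3 : 1 ≤ bJ B t := h.1
    have h4 : bK B t ≤ 0 := h.2
    have := bJ_le_bK hB h3
    omega

theorem exists_lay (hB : 2 ≤ B) :
    ∃ Λ : (ℕ → Ly) → ℕ → Ly, FS Λ ∧ ∀ e, Λ (lay B e) = lay B (e + 1) := by
  have hH := FS.pt fun l : Ly => l.H
  have hFz := FS.pt fun l : Ly => l.Fz
  have hAct := FS.pt fun l : Ly => l.Act
  have h1 := hH.thin (B := B) (by omega)
  have h2 := (FS.pt fun l : Ly => l.G).thin (B := B ^ 2) (by positivity)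
  have h3 := hFz.ite (FS.pt fun l : Ly => l.D) h1
  have h4 := hFz.ite (FS.pt fun l : Ly => l.In)
    ((lay2_none (FS.pt fun a : Prop => a)).rst h3 hH)
  have h6 := lay2_head.rst h3 (hAct.map₂ ((hAct.dl False).map₂
    (hFz.map₂ (hFz.dl False) fun a b => ¬ a ∧ b) Or) Or)
  refine ⟨_, lay2_mk h1 h2 h3 h4 (lay2_none h2) h6, fun e => ?_⟩
  have e1 : thin B (fun t => (lay B e t).H) = fun t => B ^ (e + 1 + 1) ∣ t := by
    rw [pow_succ B (e + 1)]
    exact thin_dvd (by positivity)
  have e2 : thin (B ^ 2) (fun t => (lay B e t).G) = fun t => B ^ (2 * (e + 1) + 2) ∣ t := by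
    rw [pow_add B (2 * (e + 1))]
    exact thin_dvd (by positivity)
  have e3 : (fun t => if (lay B e t).Fz then (lay B e t).D else thin B (fun t => (lay B e t).H) t)
      = fun t => (lay B (e + 1) t).D := by
    funext t
    rw [e1]
    split_ifs with h
    · exact congrArg (· ∣ t) (sl_succ h).symm
    · have h' : ¬ bJ B t ≤ e := h
      show _ = (sl B (e + 1) t ∣ t)
      rw [sl, min_eq_left (by omega)]
  funext t
  refine Ly.ext (congrFun e1 t) (congrFun e2 t) (congrFun e3 t) ?_ ?_ ?_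
  · show (if (lay B e t).Fz then (lay B e t).In else _) = _
    rw [e3, rst_lay hB]
    split_ifs with h
    · have h' : bJ B t ≤ e := h
      show (t % sl B e t < B ^ min e (bJ B t)) = (t % sl B (e + 1) t < B ^ min (e + 1) (bJ B t))
      rw [sl_succ h', min_eq_right h', min_eq_right (by omega)]
    · have h' : ¬ bJ B t ≤ e := h
      have hd : B ^ (e + 1) ∣ bd B (e + 1) t := by
        refine dvd_trans ?_ (Nat.dvd_sub_mod (n := sl B (e + 1) t) t)
        rw [sl, min_eq_left (by omega)]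
        exact pow_dvd_pow B (by omega)
      show _ = (t % sl B (e + 1) t < B ^ min (e + 1) (bJ B t))
      rw [min_eq_left (by omega), ← sub_bd]
      exact propext (lay2_lt (by positivity) hd _)
  · show (∀ s ≤ t, s = 0 ∨ ¬ thin (B ^ 2) (fun t => (lay B e t).G) s) = _
    rw [e2]
    exact propext (lay2_fz hB (e + 1) t)
  · dsimp only
    rw [e3, rst_lay hB]
    exact propext (lay2_act hB e t)

end Pool.Agent.P.MP_c1ff4a_lc
end
end

-- part Pool.Agent.P.MP_c1ff4a_lc.Pad
section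

/-! Removing a block of equal letters in front of the input: sweeps. -/

set_option autoImplicit false

open Classical

noncomputable section

namespace Pool.Agent.P.MP_c1ff4a_lc

variable {A Γ : Type} [Finite A] [Finite Γ] {Φ : A → (ℕ → Γ) → ℕ → Γ}

/-- the queue of a section -/
def qu (x : A) (B p : ℕ) (w : List A) (t : ℕ) : List A :=
  List.replicate (p + 4 * (min (w.length + 1) (bK B t) - bJ B t)) x ++ w

/-- the number of processed letters -/
def pr (x : A) (B p : ℕ) (w : List A) (t : ℕ) : ℕ :=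
  min (4 * (w.length + 1 - bK B t)) (min (qu x B p w t).length (B ^ bJ B t))

/-- the content of the section of `t` -/
def idl (Φ : A → (ℕ → Γ) → ℕ → Γ) (γ₀ : Γ) (x : A) (B p : ℕ) (w : List A) (t : ℕ) :
    ℕ → Sec A Γ := ide Φ γ₀ (B ^ bJ B t) (qu x B p w t) (pr x B p w t)

omit [Finite A] [Finite Γ] in
lemma idl_congr (γ₀ : Γ) (x : A) {B : ℕ} (p : ℕ) (w : List A) {s t : ℕ} (h1 : bJ B s = bJ B t)
    (h2 : bK B s = bK B t) : idl Φ γ₀ x B p w s = idl Φ γ₀ x B p w t := by
  simp only [idl, pr, qu, h1, h2]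

theorem pad_sweep (hΦ : ∀ a, FS (Φ a)) (γ₀ : Γ) (acc : Set Γ) (x : A) {B p : ℕ} (hB : 2 ≤ B)
    (hp : p ≤ 3) : ∃ (Ψ : (ℕ → Unit) → ℕ → Ly × Sec A Γ × Prop)
      (Φ' : A → (ℕ → Ly × Sec A Γ × Prop) → ℕ → Ly × Sec A Γ × Prop), FS Ψ ∧ (∀ a, FS (Φ' a)) ∧
      ∀ w : List A, (∀ t, (run Φ' (Ψ fun _ => ()) w t).2.2 →
        ∃ s u, run Φ (fun _ => γ₀) (List.replicate s x ++ w) u ∈ acc) ∧
      ∀ j k u, w ≠ [] → 1 ≤ j → 2 * (j + k) ≤ w.length + 2 → p + 4 * k ≤ w.length →
        2 * w.length + u < B ^ j →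
        run Φ (fun _ => γ₀) (List.replicate (p + 4 * k) x ++ w) u ∈ acc →
        ∃ t < B ^ (2 * j + 2), (run Φ' (Ψ fun _ => ()) w t).2.2 := by
  obtain ⟨Λ₀, l0, l1⟩ := exists_lay0 hB
  obtain ⟨Λ, l2, l3⟩ := exists_lay hB
  choose U u1 u2 using exists_un Φ γ₀ x
  choose P p1 p2 using exists_ac hΦ γ₀ acc
  have hL : FS fun τ : ℕ → Ly × Sec A Γ × Prop => Λ fun s => (τ s).1 := l2.comp (FS.pt Prod.fst)
  have hD := hL.map Ly.D
  have hS : FS fun (τ : ℕ → Ly × Sec A Γ × Prop) s => (τ s).2.1 :=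
    FS.pt fun z : Ly × Sec A Γ × Prop => z.2.1
  have hP := fun a => (p1 a).rst hD (FS.pt fun z : Ly × Sec A Γ × Prop => (z.1.In, z.2.1))
  have h0 := l2.comp l0
  obtain ⟨Ψ, hΨ⟩ : ∃ Ψ : (ℕ → Unit) → ℕ → Ly × Sec A Γ × Prop, Ψ = fun τ t => (Λ (Λ₀ τ) t,
    ⟨rst (fun _ u => (List.replicate p x)[u]?) (fun s => (Λ (Λ₀ τ) s).D) τ t, False, γ₀⟩, False) :=
    ⟨_, rfl⟩
  obtain ⟨Φ', hΦ'⟩ : ∃ Φ' : A → (ℕ → Ly × Sec A Γ × Prop) → ℕ → Ly × Sec A Γ × Prop,
    Φ' = fun a τ t => (Λ (fun s => (τ s).1) t,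
      if (τ t).1.Act then
        (rst (P a) (fun s => (Λ (fun s => (τ s).1) s).D) (fun s => ((τ s).1.In, (τ s).2.1)) t).1
      else if (τ t).1.Fz then
        rst (U a 4) (fun s => (Λ (fun s => (τ s).1) s).D) (fun s => (τ s).2.1) t
      else rst (U a 0) (fun s => (Λ (fun s => (τ s).1) s).D) (fun s => (τ s).2.1) t,
      (τ t).1.Act ∧
        (rst (P a) (fun s => (Λ (fun s => (τ s).1) s).D) (fun s => ((τ s).1.In, (τ s).2.1)) t).2) :=
    ⟨_, rfl⟩
  -- one step
  have step : ∀ (w : List A) (a : A) (τ : ℕ → Ly × Sec A Γ × Prop),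
      (fun s => (τ s).1) = lay B (w.length + 1) →
      (∀ t, 1 ≤ bJ B t → (τ t).2.1 = idl Φ γ₀ x B p w t (t - bd B (w.length + 1) t)) →
      (fun s => (Φ' a τ s).1) = lay B (w.length + 1 + 1) ∧
      (∀ t, 1 ≤ bJ B t → (Φ' a τ t).2.1 =
        idl Φ γ₀ x B p (w ++ [a]) t (t - bd B (w.length + 1 + 1) t)) ∧
      ∀ t, (Φ' a τ t).2.2 ↔ (1 ≤ bJ B t ∧ bK B t ≤ w.length + 1) ∧
        B ^ bJ B t ≤ t - bd B (w.length + 1) t ∧
        (qu x B p w t).length + 1 ≤ min (pr x B p w t + 4) (B ^ bJ B t) ∧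
        run Φ (fun _ => γ₀) (qu x B p w t ++ [a]) (t - bd B (w.length + 1) t - B ^ bJ B t) ∈ acc := by
    intro w a τ e1 e2
    have e3 : ∀ s, (τ s).1 = lay B (w.length + 1) s := congrFun e1
    have fz : ∀ t, 1 ≤ bJ B t → bJ B t ≤ w.length + 1 → ∀ u ≤ t - bd B (w.length + 1) t,
        (τ (bd B (w.length + 1) t + u)).2.1 = idl Φ γ₀ x B p w t u ∧
        ((τ (bd B (w.length + 1) t + u)).1.In = (u < B ^ bJ B t)) := fun t h1 h2 u hu => by
      have a1 := bd_le B (w.length + 1) t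
      have a2 := lt_bd_add hB (w.length + 1) t
      have a3 := bJ_sec hB (Nat.le_add_right _ u) (show _ < bd B (w.length + 1) t + _ by omega)
      have a4 := bK_sec hB h2 (Nat.le_add_right _ u) (show _ < bd B (w.length + 1) t + _ by omega)
      have a5 := bd_sec hB (Nat.le_add_right _ u) (show _ < bd B (w.length + 1) t + _ by omega)
      refine ⟨by rw [e2 _ (a3 ▸ h1), a5, Nat.add_sub_cancel_left, idl_congr γ₀ x p w a3 a4], ?_⟩
      rw [e3]
      show (_ % _ < _) = _
      rw [← sub_bd, a5, Nat.add_sub_cancel_left, a3, min_eq_right h2]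
    have ac : ∀ t, 1 ≤ bJ B t → bK B t ≤ w.length + 1 →
        rst (P a) (fun s => (lay B (w.length + 1 + 1) s).D) (fun s => ((τ s).1.In, (τ s).2.1)) t =
          P a (fun u => (u < B ^ bJ B t, idl Φ γ₀ x B p w t u)) (t - bd B (w.length + 1) t) :=
      fun t h1 h2 => by
        have h3 := (bJ_le_bK hB h1).trans h2
        rw [rst_lay hB, bd_succ h3]
        exact (p1 a).causal fun u hu => Prod.ext (fz t h1 h3 u hu).2 (fz t h1 h3 u hu).1
    have pr1 : ∀ t, pr x B p w t ≤ (qu x B p w t).length := fun t => by unfold pr; omega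
    have pr2 : ∀ t, pr x B p w t ≤ B ^ bJ B t := fun t => by unfold pr; omega
    subst hΦ'
    simp only [l3, e3]
    refine ⟨trivial, fun t h1 => ?_, fun t => and_congr_right fun h => ?_⟩
    · have h2 := bJ_le_bK hB h1
      split_ifs with b1 b2
      · have b3 : bK B t ≤ w.length + 1 := b1.2
        have := ac t h1 b3
        simp only [e3] at this
        rw [this, idl, p2 a _ _ _ (pr1 t) (pr2 t), bd_succ (h2.trans b3), idl]
        have c1 : qu x B p (w ++ [a]) t = qu x B p w t ++ [a] := by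
          simp only [qu, List.length_append, List.length_singleton, List.append_assoc]
          rw [min_eq_right b3, min_eq_right (by omega)]
        have c2 : pr x B p (w ++ [a]) t =
            min (pr x B p w t + 4) (min ((qu x B p w t).length + 1) (B ^ bJ B t)) := by
          simp only [pr, c1, List.length_append, List.length_singleton]
          omega
        rw [c1, c2]
      · have b3 : ¬ bK B t ≤ w.length + 1 := fun h => b1 ⟨h1, h⟩
        have b4 : bJ B t ≤ w.length + 1 := b2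
        rw [rst_lay hB, bd_succ b4, (u1 a 4).causal fun u hu => (fz t h1 b4 u hu).1,
          u2 a 4 _ (qu x B p w t) (B ^ bJ B t) fun _ _ => rfl, idl]
        have c1 : qu x B p (w ++ [a]) t = List.replicate 4 x ++ (qu x B p w t ++ [a]) := by
          simp only [qu, List.length_append, List.length_singleton, List.append_assoc]
          rw [← List.append_assoc (List.replicate 4 x), ← List.replicate_add]
          congr 2
          omega
        have c2 : pr x B p (w ++ [a]) t = 0 := by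
          simp only [pr, List.length_append, List.length_singleton]
          omega
        rw [c1, c2]
      · have b4 : w.length + 1 < bJ B t := not_le.1 b2
        have c0 : ∀ s, bJ B s = bJ B t → qu x B p w s = List.replicate p x ++ w := fun s hs => by
          rw [qu, show min (w.length + 1) (bK B s) - bJ B s = 0 by omega]
          rfl
        rw [rst_lay hB, u2 a 0 _ (List.replicate p x ++ w) (B ^ bJ B t) fun u hu => ?_, idl]
        · have c1 : qu x B p (w ++ [a]) t =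
              List.replicate 0 x ++ (List.replicate p x ++ w ++ [a]) := by
            rw [qu, List.length_append, List.length_singleton,
              show min (w.length + 1 + 1) (bK B t) - bJ B t = 0 by omega]
            simp
          have c2 : pr x B p (w ++ [a]) t = 0 := by
            simp only [pr, List.length_append, List.length_singleton]
            omega
          rw [c1, c2]
        · have d1 : u < B ^ (w.length + 1 + 1) := by
            have := Nat.pow_le_pow_left hB (w.length + 1 + 1)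
            have := Nat.lt_two_pow_self (n := w.length)
            simp only [List.length_append, List.length_replicate] at hu
            rw [pow_succ 2, pow_succ 2] at *
            omega
          obtain ⟨d2, d3⟩ := bd_coarse hB b4 d1
          rw [e2 _ (d2 ▸ h1), d3, Nat.add_sub_cancel_left, idl, c0 _ d2]
          rfl
    · have := ac t h.1 h.2
      simp only [e3] at this
      rw [this, idl, p2 a _ _ _ (pr1 t) (pr2 t)]
  have inv : ∀ w : List A, (fun s => (run Φ' (Ψ fun _ => ()) w s).1) = lay B (w.length + 1) ∧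
      ∀ t, 1 ≤ bJ B t → (run Φ' (Ψ fun _ => ()) w t).2.1 =
        idl Φ γ₀ x B p w t (t - bd B (w.length + 1) t) := fun w => by
    induction w using List.reverseRecOn with
    | nil =>
      subst hΨ
      simp only [run_nil, l1, l3, List.length_nil]
      refine ⟨trivial, fun t h1 => ?_⟩
      have h2 := bJ_le_bK hB h1
      have c1 : qu x B p [] t = List.replicate p x := by
        rw [qu, List.length_nil, show min (0 + 1) (bK B t) - bJ B t = 0 by omega]
        simp
      have c2 : pr x B p [] t = 0 := by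
        simp only [pr, List.length_nil]
        omega
      rw [rst_lay hB, idl, c1, c2]
      simp [ide]
    | append_singleton w a ih =>
      rw [run_snoc, List.length_append]
      exact ⟨(step w a _ ih.1 ih.2).1, (step w a _ ih.1 ih.2).2.1⟩
  refine ⟨Ψ, Φ', ?_, fun a => ?_, fun w => ⟨fun t ht => ?_, fun j k u h1 h2 h3 h4 h5 h6 => ?_⟩⟩
  · subst hΨ
    exact h0.map₂ ((FS.list (List.replicate p x)).rst (h0.map Ly.D) (FS.pt id))
      fun a b => (a, Sec.mk b False γ₀, False)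
  · subst hΦ'
    exact hL.pair ((((FS.pt fun z : Ly × Sec A Γ × Prop => z.1.Act).ite ((hP a).map Prod.fst)
      ((FS.pt fun z : Ly × Sec A Γ × Prop => z.1.Fz).ite ((u1 a 4).rst hD hS)
        ((u1 a 0).rst hD hS)))).pair ((FS.pt fun z : Ly × Sec A Γ × Prop => z.1.Act).map₂
          ((hP a).map Prod.snd) And))
  · induction w using List.reverseRecOn with
    | nil => subst hΨ; exact ht.elim
    | append_singleton w a _ =>
      rw [run_snoc, (step w a _ (inv w).1 (inv w).2).2.2, qu, List.append_assoc] at ht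
      exact ⟨_, _, ht.2.2.2⟩
  · induction w using List.reverseRecOn with
    | nil => exact (h1 rfl).elim
    | append_singleton w a _ =>
      rw [List.length_append, List.length_singleton] at h3 h4 h5
      have a1 := Nat.mul_le_mul_left (B ^ j) hB
      obtain ⟨t, t1, t2, t3, t4⟩ := exists_pos hB h2 (k := k) (u := B ^ j + u) (by omega)
        (by rw [pow_succ]; omega)
      have c1 : qu x B p w t = List.replicate (p + 4 * k) x ++ w := by
        rw [qu, t2, t3, show min (w.length + 1) (j + k) - j = k by omega]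
      refine ⟨t, t1, ?_⟩
      rw [run_snoc, (step w a _ (inv w).1 (inv w).2).2.2, t4 _ (by omega), pr, c1, t2, t3,
        Nat.add_sub_cancel_left, List.append_assoc, List.length_append, List.length_replicate]
      exact ⟨by omega, by omega, by omega, h6⟩

end Pool.Agent.P.MP_c1ff4a_lc
end
end

-- part Pool.Agent.P.MP_c1ff4a_lc.Elim
section

/-! Removing blocks of equal letters in front of the input. -/

set_option autoImplicit false

open Classical

noncomputable section

namespace Pool.Agent.P.MP_c1ff4a_lc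

variable {A : Type} [Finite A]

theorem pad_elim (N : OLCA A) (x : A) : ∃ (N' : OLCA A) (c : ℕ),
    (∀ w ∈ N'.lang, w ≠ [] ∧ ∃ s, List.replicate s x ++ w ∈ N.lang) ∧
    ∀ w s t, w ≠ [] → s ≤ w.length → N.AccAt (List.replicate s x ++ w) t →
      ∃ t' ≤ c * (t + w.length + 1) ^ 2, N'.AccAt w t' := by
  have := N.fin
  obtain ⟨Φ, h1, h2⟩ := N.sweep
  obtain ⟨B, hB⟩ : ∃ B, B = Nat.card N.Q ^ 8 + 9 := ⟨_, rfl⟩
  have b2 : 2 ≤ B := by omega
  choose Ψ Φ' a1 a2 a3 using fun p : Fin 4 =>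
    pad_sweep h1 none (some '' N.F) x b2 (show p.1 ≤ 3 by omega)
  obtain ⟨N', h3⟩ := exists_olca (FS.pi a1)
    (fun a => FS.pi fun p => (a2 p a).comp (FS.pt fun z : Fin 4 → _ => z p)) {z | ∃ p, (z p).2.2}
  have e : ∀ (w : List A) p, (fun t => run (fun a (τ : ℕ → Fin 4 → _) t p => Φ' p a (fun t => τ t p) t)
      (fun t p => Ψ p (fun _ => ()) t) w t p) = run (Φ' p) (Ψ p fun _ => ()) w := fun w p => by
    induction w using List.reverseRecOn with
    | nil => rfl
    | append_singleton w a ih => simp only [run_snoc, ih]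
  refine ⟨N', 4 * B ^ 4 + 1, fun w ⟨t, h⟩ => ?_, fun w s t hw hs h => ?_⟩
  · obtain ⟨b, u, -, p, c⟩ := (h3 w t).1 h
    obtain ⟨s, v, d⟩ := (a3 p w).1 u (congrFun (e w p) u ▸ c)
    exact ⟨b, s, v, (h2 _ v).2 d⟩
  obtain ⟨t₀, c1, c2, c3⟩ := N.first h
  have n1 := List.length_pos_iff.2 hw
  rw [List.length_append, List.length_replicate] at c2
  have c4 : 2 * w.length + t₀ < B ^ (w.length / 4 + 1) := by
    have d1 : 0 < Nat.card N.Q := Nat.pos_of_ne_zero fun d => by
      rw [d, zero_pow (by omega)] at c2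
      omega
    have d2 := Nat.pow_le_pow_right d1 (show s + w.length ≤ 8 * (w.length / 4 + 1) by omega)
    have d3 := one_add_mul_le_pow_of_sq_nonneg (a := 8) (by omega) (by omega) (by omega)
      (w.length / 4 + 1)
    have d4 := pow_add_pow_le (Nat.zero_le (Nat.card N.Q ^ 8)) (Nat.zero_le 9)
      (w.length / 4).succ_ne_zero
    rw [← hB, ← pow_mul, Nat.succ_eq_add_one] at d4
    norm_num at d3
    omega
  have c5 := Nat.log_lt_of_lt_pow (by omega) c4
  obtain ⟨u, c6, c7⟩ := (a3 ⟨s % 4, by omega⟩ w).2 (Nat.log B (2 * w.length + t₀) + 1) (s / 4) t₀ hw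
    (by omega) (by omega) (by simp only; omega) (Nat.lt_pow_succ_log_self b2 _)
    (by simpa only [Nat.mod_add_div] using (h2 _ _).1 c3)
  refine ⟨w.length + u, ?_, (h3 w _).2 ⟨hw, u, rfl, _, congrFun (e w _) u ▸ c7⟩⟩
  have d1 := Nat.pow_log_le_self B (x := 2 * w.length + t₀) (by omega)
  have d2 : B ^ (2 * (Nat.log B (2 * w.length + t₀) + 1) + 2) ≤
      B ^ 4 * (2 * (t + w.length + 1)) ^ 2 := by
    rw [show 2 * (Nat.log B (2 * w.length + t₀) + 1) + 2 = 4 + Nat.log B (2 * w.length + t₀) * 2 by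
      ring, pow_add, pow_mul]
    gcongr
    omega
  nlinarith

/-- blocks of letters with multiplicities -/
def blocks {A : Type} (L : List (A × ℕ)) : List A := L.flatMap fun q => List.replicate q.2 q.1

lemma Main_mono (p : Polynomial ℕ) {a b : ℕ} (h : a ≤ b) : p.eval a ≤ p.eval b := by
  rw [Polynomial.eval_eq_sum_range, Polynomial.eval_eq_sum_range]
  gcongr

lemma Main_len {α : Type} {n : ℕ} (L : List (α × ℕ)) (h : ∀ q ∈ L, q.2 ≤ n) :
    (blocks L).length ≤ L.length * n := by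
  induction L with
  | nil => simp [blocks]
  | cons q L ih =>
    have := ih fun q hq => h q (List.mem_cons_of_mem _ hq)
    have := h q List.mem_cons_self
    simp only [blocks, List.flatMap_cons, List.length_append, List.length_replicate,
      List.length_cons] at *
    rw [Nat.succ_mul]
    omega

theorem pad_elim_list (xs : List A) (N : OLCA A) : ∃ (N' : OLCA A) (p : Polynomial ℕ),
    (∀ w ∈ N'.lang, ∃ L : List (A × ℕ), L.map Prod.fst = xs ∧ blocks L ++ w ∈ N.lang) ∧
    ∀ (w : List A) (L : List (A × ℕ)) (t : ℕ), w ≠ [] → L.map Prod.fst = xs →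
      (∀ q ∈ L, q.2 ≤ w.length) → N.AccAt (blocks L ++ w) t →
      ∃ t' ≤ p.eval (t + w.length), N'.AccAt w t' := by
  induction xs generalizing N with
  | nil =>
    refine ⟨N, Polynomial.X, fun w h => ⟨[], rfl, h⟩, fun w L t _ h _ a => ⟨t, by simp, ?_⟩⟩
    rwa [List.map_eq_nil_iff.1 h] at a
  | cons x xs ih =>
    obtain ⟨N₁, c, a1, a2⟩ := pad_elim N x
    obtain ⟨N', p, b1, b2⟩ := ih N₁
    refine ⟨N', p.comp (Polynomial.C c * (Polynomial.C (xs.length + 1) * Polynomial.X + 1) ^ 2 +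
      Polynomial.X), fun w h => ?_, ?_⟩
    · obtain ⟨L, c1, c2⟩ := b1 w h
      obtain ⟨-, s, c3⟩ := a1 _ c2
      exact ⟨(x, s) :: L, by simp [c1], by simpa [blocks] using c3⟩
    rintro w (_ | ⟨⟨y, s⟩, L⟩) t hw h1 h2 h3
    · simp at h1
    obtain ⟨rfl, h0⟩ : y = x ∧ L.map Prod.fst = xs := List.cons.inj h1
    have h4 := fun q hq => h2 q (List.mem_cons_of_mem _ hq)
    have h5 : s ≤ w.length := h2 _ List.mem_cons_self
    obtain ⟨t₁, c1, c2⟩ := a2 (blocks L ++ w) s t (by simp [hw]) (by simp; omega)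
      (by simpa [blocks] using h3)
    obtain ⟨t₂, c3, c4⟩ := b2 w L t₁ hw h0 h4 c2
    refine ⟨t₂, c3.trans ?_, c4⟩
    have := Main_len L h4
    rw [← List.length_map Prod.fst, h0] at this
    simp only [Polynomial.eval_comp, Polynomial.eval_mul, Polynomial.eval_C, Polynomial.eval_X,
      Polynomial.eval_add, Polynomial.eval_pow, Polynomial.eval_one]
    refine Main_mono p (add_le_add (c1.trans ?_) (by omega))
    rw [List.length_append]
    gcongr
    nlinarith

end Pool.Agent.P.MP_c1ff4a_lc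
end
end

-- part Pool.Agent.P.MP_c1ff4a_lc.Main
section

/-! The two theorems. -/

set_option autoImplicit false

open Classical Polynomial

noncomputable section

namespace Pool.Agent.P.MP_c1ff4a_lc

lemma Main_left {α β : Type} {u u' : List α} {v v' : List β}
    (h : u.map Sum.inl ++ v.map Sum.inr = u'.map Sum.inl ++ v'.map Sum.inr) : u = u' ∧ v = v' := by
  have h1 := congrArg (List.filterMap Sum.getLeft?) h
  have h2 := congrArg (List.filterMap Sum.getRight?) h
  simp only [List.filterMap_append, List.filterMap_map, Function.comp_def, Sum.getLeft?_inl,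
    Sum.getLeft?_inr, Sum.getRight?_inl, Sum.getRight?_inr, List.filterMap_some,
    List.filterMap_none, List.append_nil, List.nil_append] at h1 h2
  exact ⟨h1, h2⟩

lemma Main_blocks {α β : Type} (f : α → β) (L : List (α × ℕ)) :
    blocks (L.map fun q => (f q.1, q.2)) = (blocks L).map f := by
  simp [blocks, List.flatMap_map, List.map_flatMap]

lemma Main_lift {α β : Type} (f : α → β) (xs : List α) : ∀ L : List (β × ℕ),
    L.map Prod.fst = xs.map f → ∃ L' : List (α × ℕ), L = L'.map fun q => (f q.1, q.2) := by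
  induction xs with
  | nil => exact fun L h => ⟨[], by simpa using h⟩
  | cons x xs ih =>
    rintro (_ | ⟨⟨a, n⟩, L⟩) h
    · simp at h
    · simp only [List.map_cons, List.cons.injEq] at h
      obtain ⟨L', rfl⟩ := ih L h.2
      exact ⟨(x, n) :: L', by simp [h.1]⟩

theorem bounded {σ : Type} [Finite σ] (M : OLIA σ) (T : ℕ → ℕ) (hT : M.Time T)
    {k : ℕ} (ws : Fin k → List σ) (hb : ∀ w ∈ M.lang, ∃ ns : Fin k → ℕ,
      w = (List.ofFn fun i => (List.replicate (ns i) (ws i)).flatten).flatten) :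
    ∃ (N : OLCA σ) (p : Polynomial ℕ), N.lang = M.lang ∧ N.Time fun n => p.eval (T n) := by
  by_cases h0 : M.q₀ ∈ M.F
  · obtain ⟨N, h1, h2⟩ := M.trivial h0
    exact ⟨N, 0, h1, by simpa using h2⟩
  obtain ⟨N₀, a1, a2⟩ := exists_post M h0 ws Eq
  obtain ⟨N₁, p, b1, b2⟩ := pad_elim_list ((List.finRange k).map Sum.inl) N₀
  obtain ⟨N, c1⟩ := N₁.comap (Function.Embedding.inr (α := Fin k) (β := σ))
  have key : ∀ w ∈ M.lang, ∃ t ≤ (p.comp (C (k + 3) * X)).eval (T w.length), N.AccAt w t := by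
    intro w hw
    obtain ⟨t, t1, t2⟩ := hT w hw
    obtain ⟨ns, e⟩ := hb w hw
    have t3 := M.le_of_acc h0 t2
    obtain ⟨L, hL⟩ : ∃ L : List (Fin k × ℕ),
      L = List.ofFn fun i => (i, if ws i = [] then 0 else ns i) := ⟨_, rfl⟩
    have e1 : (blocks L).flatMap ws = w := by
      rw [e, hL, blocks, List.flatMap_assoc, List.flatMap_def, List.map_ofFn]
      congr 2
      funext i
      by_cases h : ws i = [] <;> simp [h, List.flatMap_def]
    have e2 : ∀ q ∈ L, q.2 ≤ w.length := fun q hq => by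
      obtain ⟨i, rfl⟩ := List.mem_ofFn.1 (hL ▸ hq)
      have h1 := (List.sublist_flatten_of_mem (List.mem_ofFn.2 ⟨i, rfl⟩ :
        (List.replicate (ns i) (ws i)).flatten ∈ List.ofFn fun i =>
          (List.replicate (ns i) (ws i)).flatten)).length_le
      rw [← e] at h1
      split_ifs with h
      · exact Nat.zero_le _
      · refine le_trans ?_ h1
        simpa using Nat.le_mul_of_pos_right _ (List.length_pos_iff.2 h)
    have e3 := Main_len L e2
    have e4 : L.length = k := by simp [hL]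
    obtain ⟨t', d1, d2⟩ := b2 (w.map Sum.inr) (L.map fun q => (Sum.inl q.1, q.2)) _
      (fun h => M.not_acc_nil t (by rwa [List.map_eq_nil_iff.1 h] at t2))
      (by simp [hL, List.finRange, List.map_ofFn, Function.comp_def])
      (fun q hq => by
        obtain ⟨q', h, rfl⟩ := List.mem_map.1 hq
        rw [List.length_map]
        exact e2 q' h)
      (by rw [Main_blocks]; exact a2 _ w t (by rw [e1]; simp) (e1 ▸ t2))
    refine ⟨t', d1.trans ?_, (c1 w t').2 d2⟩
    rw [eval_comp, eval_mul, eval_C, eval_X]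
    refine Main_mono p ?_
    rw [List.length_map]
    rw [e4] at e3
    nlinarith [Nat.mul_le_mul_left k (t3.trans t1)]
  have hl : N.lang = M.lang := by
    refine Set.ext fun w => ⟨fun ⟨t, ht⟩ => ?_, fun hw => let ⟨t, _, h⟩ := key w hw; ⟨t, h⟩⟩
    obtain ⟨L, d1, d2⟩ := b1 _ ⟨t, (c1 w t).1 ht⟩
    obtain ⟨L', rfl⟩ := Main_lift _ _ L d1
    obtain ⟨u, v, d3, d4, d5⟩ := a1 _ d2
    rw [Main_blocks] at d3
    rw [(Main_left d3).2, List.forall₂_eq_eq_eq.symm ▸ d4 |> fun h : v = _ => h]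
    exact d5
  exact ⟨N, _, hl, fun w hw => key w (hl ▸ hw)⟩

theorem reversal : (∀ (σ : Type) [Finite σ] (M : OLIA σ) (T : ℕ → ℕ), M.Time T →
      ∃ (N : OLCA σ) (p : Polynomial ℕ), N.lang = M.lang ∧ N.Time fun n => p.eval (T n)) ↔
    ∀ (σ : Type) [Finite σ] (N : OLCA σ) (T : ℕ → ℕ), N.Time T →
      ∃ (N' : OLCA σ) (p : Polynomial ℕ), N'.lang = {w | w.reverse ∈ N.lang} ∧
        N'.Time fun n => p.eval (T n + n) := by
  refine ⟨fun h σ _ N T hT => ?_, fun h σ _ M T hT => ?_⟩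
  · obtain ⟨M, hM⟩ := exists_rev N
    have hl : M.lang = {w | w.reverse ∈ N.lang} := Set.ext fun w =>
      ⟨fun ⟨t, ht⟩ => let ⟨u, _, hu⟩ := (hM w t).1 ht; ⟨u, hu⟩,
        fun ⟨u, hu⟩ => ⟨_, (hM w _).2 ⟨u, rfl, hu⟩⟩⟩
    obtain ⟨N', p, h1, h2⟩ := h σ M (fun n => 2 * n + T n) fun w hw => by
      obtain ⟨u, a, b⟩ := hT w.reverse (hl ▸ hw :)
      rw [List.length_reverse] at a
      exact ⟨_, Nat.add_le_add_left a _, (hM w _).2 ⟨u, rfl, b⟩⟩
    refine ⟨N', p.comp (C 2 * X), h1.trans hl, fun w hw => ?_⟩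
    obtain ⟨t, a, b⟩ := h2 w hw
    refine ⟨t, a.trans ?_, b⟩
    simp only [eval_comp, eval_mul, eval_C, eval_X]
    exact Main_mono p (by omega)
  by_cases h0 : M.q₀ ∈ M.F
  · obtain ⟨N, h1, h2⟩ := M.trivial h0
    exact ⟨N, 0, h1, by simpa using h2⟩
  obtain ⟨N₁, a1, a2⟩ := exists_post M h0 (fun a => [a]) fun (_ : Unit) _ => True
  simp only [List.flatMap_singleton'] at a1 a2
  have a3 : ∀ (v : List Unit) (u : List σ), List.Forall₂ (fun _ _ => True) v u ↔
      v.length = u.length := fun v u => by simp [List.forall₂_iff_zip]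
  simp only [a3] at a1 a2
  obtain ⟨N₂, p₁, b1, b2⟩ := h _ N₁ (fun m => m + T (m / 2)) fun z hz => by
    obtain ⟨u, v, rfl, d1, d2⟩ := a1 z hz
    obtain ⟨t, d3, d4⟩ := hT u d2
    refine ⟨_, ?_, a2 u v t d1 d4⟩
    simp only [List.length_append, List.length_map, d1]
    rw [show (u.length + u.length) / 2 = u.length by omega]
    omega
  obtain ⟨N₃, c, c1, c2⟩ := pad_elim N₂ (Sum.inr ())
  obtain ⟨N₄, d1⟩ := N₃.comap (Function.Embedding.inl (α := σ) (β := Unit))
  have e0 : ∀ (s : ℕ) (w : List σ), (List.replicate s (Sum.inr ()) ++ w.map Sum.inl).reverse =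
      w.reverse.map Sum.inl ++ (List.replicate s ()).map Sum.inr := fun s w => by simp
  have key : ∀ w : List σ, w.reverse ∈ M.lang →
      ∃ t ≤ c * (p₁.eval (T w.length + 4 * w.length) + w.length + 1) ^ 2, N₄.AccAt w t := by
    intro w hw
    obtain ⟨t, -, ht⟩ := hT _ hw
    obtain ⟨t₂, f1, f2⟩ := b2 (List.replicate w.length (Sum.inr ()) ++ w.map Sum.inl) (by
      rw [b1, Set.mem_ofPred_eq, e0]
      exact ⟨_, a2 _ _ t (by simp) ht⟩)
    obtain ⟨t₃, f3, f4⟩ := c2 (w.map Sum.inl) w.length t₂ (fun h => M.not_acc_nil t (by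
      rwa [List.map_eq_nil_iff.1 h] at ht)) (by simp) f2
    refine ⟨t₃, f3.trans ?_, (d1 w t₃).2 f4⟩
    simp only [List.length_append, List.length_replicate, List.length_map] at f1 ⊢
    rw [show (w.length + w.length) / 2 = w.length by omega] at f1
    have := f1.trans (Main_mono p₁ (b := T w.length + 4 * w.length) (by omega))
    gcongr
  have hl : ∀ w, w ∈ N₄.lang ↔ w.reverse ∈ M.lang := fun w => by
    refine ⟨fun ⟨t, ht⟩ => ?_, fun hw => let ⟨t, _, h⟩ := key w hw; ⟨t, h⟩⟩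
    obtain ⟨-, s, hs⟩ := c1 _ ⟨t, (d1 w t).1 ht⟩
    rw [b1, Set.mem_ofPred_eq] at hs
    obtain ⟨u, v, f1, -, f2⟩ := a1 _ hs
    exact (Main_left ((e0 s w).symm.trans f1)).1 ▸ f2
  obtain ⟨N₅, p₂, g1, g2⟩ := h σ N₄ (fun n => c * (p₁.eval (T n + 4 * n) + n + 1) ^ 2)
    fun w hw => key w ((hl w).1 hw)
  have hl' : N₅.lang = M.lang := by
    rw [g1]
    ext w
    rw [Set.mem_ofPred_eq, hl, List.reverse_reverse]
  refine ⟨N₅, p₂.comp (C c * (p₁.comp (C 5 * X) + X + 1) ^ 2 + X), hl', fun w hw => ?_⟩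
  obtain ⟨t, f1, f2⟩ := g2 w hw
  obtain ⟨s, f3, f4⟩ := hT w (hl' ▸ hw)
  have f5 := (M.le_of_acc h0 f4).trans f3
  refine ⟨t, f1.trans ?_, f2⟩
  simp only [eval_comp, eval_mul, eval_C, eval_X, eval_add, eval_pow, eval_one]
  have := Main_mono p₁ (show T w.length + 4 * w.length ≤ 5 * T w.length by omega)
  refine Main_mono p₂ ?_
  gcongr

end Pool.Agent.P.MP_c1ff4a_lc
end
end
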