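import Pool.Agent.K.MP_c1ff4a_lc.C3
import Pool.Agent.K.MP_c1ff4a_lc.C1

-- part Pool.Agent.P.MP_c1ff4a_lc.SatA
section

/-! Many short inputs are run against one stream. -/

set_option autoImplicit false

open Classical

noncomputable section

namespace Pool.Agent.P.MP_c1ff4a_lc

variable {σ Γ : Type}

/-- a stream that starts at position `D` -/
def off (D : ℕ) (γ : Γ) (ρ : ℕ → Γ) (u : ℕ) : Γ := if u < D then γ else ρ (u - D)

lemma dl_off (D : ℕ) (γ : Γ) (ρ : ℕ → Γ) : dl γ (off D γ ρ) = off (D + 1) γ ρ := by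
  funext u
  cases u <;> simp [dl, off]

lemma off_add (D : ℕ) (γ : Γ) (ρ : ℕ → Γ) (u : ℕ) : off D γ ρ (D + u) = ρ u := by simp [off]

lemma exists_offs [Finite σ] [Finite Γ] {Φ : σ → (ℕ → Γ) → ℕ → Γ} (hΦ : ∀ a, FS (Φ a)) :
    ∃ P : (ℕ → Prop × Option σ × Γ) → ℕ → Γ, FS P ∧ ∀ (D : ℕ) (γ : Γ) (ρ : ℕ → Γ)
      (V : ℕ → Option σ), ((∀ u ≤ D, V u = none) →
        P (fun u => (u < D + 1, V u, off (D + 1) γ ρ u)) = off (D + 1) γ ρ) ∧
      ∀ a, V D = some a →
        P (fun u => (u < D + 1, V u, off (D + 1) γ ρ u)) = off (D + 1) γ (Φ a ρ) := by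
  obtain ⟨P, h1, h2⟩ := exists_aft hΦ
  refine ⟨P, h1, fun D γ ρ V => ?_⟩
  obtain ⟨a1, a2, a3⟩ := h2 (fun u => (u < D + 1, V u, off (D + 1) γ ρ u)) (D + 1)
    fun _ => Iff.rfl
  refine ⟨fun h => funext (a2 fun u hu => h u (by omega)), fun a h => funext fun u => ?_⟩
  rcases lt_or_ge u (D + 1) with hu | hu
  · rw [a1 u hu]
    simp [off, hu]
  · obtain ⟨v, rfl⟩ := Nat.exists_eq_add_of_le hu
    rw [a3 D (by omega) a h (fun u _ _ => by omega) v, off_add]
    simp only [off_add]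

/-- data, pointer, the two simulated words, the recorded words, the number of letters -/
structure Bs (σ : Type) where
  x : List Bool
  k : ℕ
  h : List σ
  w : List σ
  S : List (List σ)
  n : ℕ

/-- the effect of a letter: data, extend the stream, extend the word, next data bit, record -/
def bstep (e : Bool → σ) (s : Bs σ) : Bool ⊕ σ ⊕ σ ⊕ Bool → Bs σ
  | .inl b => ⟨s.x ++ [b], 0, s.h, s.w, s.S, s.n + 1⟩
  | .inr (.inl a) => ⟨s.x, s.k, s.h ++ [a], s.w, s.S, s.n + 1⟩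
  | .inr (.inr (.inl a)) => ⟨s.x, s.k, s.h, s.w ++ [a], s.S, s.n + 1⟩
  | .inr (.inr (.inr false)) =>
      ⟨s.x, s.k + 1, s.h, s.w ++ ((s.x.map e).reverse[s.k]?).toList, s.S, s.n + 1⟩
  | .inr (.inr (.inr true)) => ⟨s.x, 0, s.h, s.h, s.w :: s.S, s.n + 1⟩

/-- the tape of a state -/
def benc (Φ : σ → (ℕ → Γ) → ℕ → Γ) (γ : Γ) (acc : Set Γ) (e : Bool → σ) (s : Bs σ) (u : ℕ) :
    Prop × Option Bool × Option σ × Γ × Γ × Prop × Prop :=
  (u < s.x.length + 1, s.x[u]?, off s.k none (fun v => s.x[v]?.map e) u,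
    off (s.x.length + 1) γ (run Φ (fun _ => γ) s.h) u,
    off (s.x.length + 1) γ (run Φ (fun _ => γ) s.w) u,
    off (s.x.length + 1) False (fun v => ∃ w ∈ s.S, run Φ (fun _ => γ) w v ∈ acc) u, u < s.n)

lemma off_zero (γ : Γ) (ρ : ℕ → Γ) : off 0 γ ρ = ρ := by funext u; simp [off]

theorem exists_bstep [Finite σ] [Finite Γ] {Φ : σ → (ℕ → Γ) → ℕ → Γ} (hΦ : ∀ a, FS (Φ a))
    (γ : Γ) (acc : Set Γ) (e : Bool → σ) (a : Bool ⊕ σ ⊕ σ ⊕ Bool) :
    ∃ Ψ : (ℕ → Prop × Option Bool × Option σ × Γ × Γ × Prop × Prop) → ℕ →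
      Prop × Option Bool × Option σ × Γ × Γ × Prop × Prop,
      FS Ψ ∧ ∀ s, Ψ (benc Φ γ acc e s) = benc Φ γ acc e (bstep e s a) := by
  have p1 := FS.pt fun c : Prop × Option Bool × Option σ × Γ × Γ × Prop × Prop => c.1
  have p2 := FS.pt fun c : Prop × Option Bool × Option σ × Γ × Γ × Prop × Prop => c.2.1
  have p3 := FS.pt fun c : Prop × Option Bool × Option σ × Γ × Γ × Prop × Prop => c.2.2.1
  have p4 := FS.pt fun c : Prop × Option Bool × Option σ × Γ × Γ × Prop × Prop => c.2.2.2.1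
  have p5 := FS.pt fun c : Prop × Option Bool × Option σ × Γ × Γ × Prop × Prop => c.2.2.2.2.1
  have p6 := FS.pt fun c : Prop × Option Bool × Option σ × Γ × Γ × Prop × Prop => c.2.2.2.2.2.1
  have p7 := (FS.pt fun c : Prop × Option Bool × Option σ × Γ × Γ × Prop × Prop =>
    c.2.2.2.2.2.2).dl True
  have p8 := fun a : σ =>
    FS.pt fun _ : Prop × Option Bool × Option σ × Γ × Γ × Prop × Prop => some a
  obtain ⟨P, hP, sP⟩ := exists_offs hΦ
  rcases a with b | a | a | _ | _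
  · obtain ⟨A, hA, sA⟩ := exists_app b
    refine ⟨_, (p1.dl True).pair ((hA.comp p2).pair (((hA.comp p2).map (Option.map e)).pair
      ((p4.dl γ).pair ((p5.dl γ).pair ((p6.dl False).pair p7))))), fun s => funext fun u => ?_⟩
    simp only [benc, bstep, post_dl, dl_off, off_zero, sA _ s.x fun _ _ => rfl,
      List.length_append, List.length_singleton]
  · refine ⟨_, p1.pair (p2.pair (p3.pair ((hP.comp (p1.pair ((p8 a).pair p4))).pair
      (p5.pair (p6.pair p7))))), fun s => funext fun u => ?_⟩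
    simp only [benc, bstep, post_dl, (sP _ _ _ fun _ => some a).2 a rfl, run_snoc]
  · refine ⟨_, p1.pair (p2.pair (p3.pair (p4.pair ((hP.comp (p1.pair ((p8 a).pair p5))).pair
      (p6.pair p7))))), fun s => funext fun u => ?_⟩
    simp only [benc, bstep, post_dl, (sP _ _ _ fun _ => some a).2 a rfl, run_snoc]
  · refine ⟨_, p1.pair (p2.pair ((p3.dl none).pair (p4.pair ((hP.comp (p1.pair
      ((p3.dl none).pair p5))).pair (p6.pair p7))))), fun s => funext fun u => ?_⟩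
    simp only [benc, bstep, post_dl, dl_off]
    rcases lt_or_ge s.k s.x.length with h | h
    · have h1 : s.k < (s.x.map e).reverse.length := by simpa using h
      rw [List.getElem?_eq_getElem h1, Option.toList_some, run_snoc,
        (sP _ _ _ _).2 (s.x.map e).reverse[s.k] (by
        rw [off, if_neg (by omega), List.getElem?_eq_getElem (by omega), List.getElem_reverse,
          List.getElem_map, Option.map_some]
        congr 3
        simp only [List.length_map]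
        omega)]
    · rw [List.getElem?_eq_none (l := (s.x.map e).reverse) (by simpa using h), Option.toList_none,
        List.append_nil, (sP _ _ _ _).1 fun u hu => by rw [off, if_pos (by omega)]]
  · refine ⟨_, p1.pair (p2.pair ((p2.map (Option.map e)).pair (p4.pair (p4.pair
      ((p6.map₂ (p1.pair p5) fun a b => (¬ b.1 ∧ b.2 ∈ acc) ∨ a).pair p7))))),
      fun s => funext fun u => ?_⟩
    simp only [benc, bstep, post_dl, off_zero, List.mem_cons, exists_eq_or_imp]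
    congr 6
    by_cases h : u < s.x.length + 1 <;> simp [off, h]

lemma bstep_n (e : Bool → σ) (l : List (Bool ⊕ σ ⊕ σ ⊕ Bool)) :
    ∀ s : Bs σ, (l.foldl (bstep e) s).n = s.n + l.length := by
  induction l with
  | nil => simp
  | cons a l ih =>
    intro s
    rw [List.foldl_cons, ih, List.length_cons]
    rcases a with b | a | a | _ | _ <;> simp only [bstep] <;> omega

theorem exists_batch [Finite σ] (N : OLCA σ) (e : Bool → σ) :
    ∃ M : OLIA (Bool ⊕ σ ⊕ σ ⊕ Bool), (M.Time fun n => 4 * n) ∧ ∀ (l : List _) (s : Bs σ),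
      s = l.foldl (bstep e) ⟨[], 0, [], [], [], 0⟩ → (l.reverse ∈ M.lang ↔
        ∃ w ∈ s.S, ∃ t, s.x.length + 1 + t < l.length ∧ N.AccAt w t) := by
  have := N.fin
  obtain ⟨Φ, hΦ, hN⟩ := N.sweep
  choose Ψ h1 h2 using exists_bstep hΦ none (some '' N.F) e
  have f := FS.pt fun _ : Unit => False
  have g := FS.pt fun _ : Unit => (none : Option N.Q)
  obtain ⟨K, hK⟩ := exists_olca ((f.dl True).pair ((FS.pt fun _ => (none : Option Bool)).pair
    ((FS.pt fun _ => (none : Option σ)).pair (g.pair (g.pair (f.pair f)))))) h1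
    {c | c.2.2.2.2.2.1 ∧ c.2.2.2.2.2.2}
  have h3 : ∀ l, run Ψ (benc Φ none (some '' N.F) e ⟨[], 0, [], [], [], 0⟩) l
      = benc Φ none (some '' N.F) e (l.foldl (bstep e) ⟨[], 0, [], [], [], 0⟩) := fun l => by
    induction l using List.reverseRecOn with
    | nil => rfl
    | append_singleton w a ih => rw [run_snoc, ih, h2, List.foldl_append]; rfl
  have h4 : (fun t : ℕ => (dl True (fun _ => False) t, (none : Option Bool), (none : Option σ),
      (none : Option N.Q), (none : Option N.Q), False, False))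
      = benc Φ none (some '' N.F) e ⟨[], 0, [], [], [], 0⟩ := by
    funext u; simp [benc, dl_zero, off]
  simp only [h4, h3, benc, Set.mem_ofPred_eq, bstep_n, zero_add, ← hN] at hK
  obtain ⟨M, hM⟩ := exists_rev K
  refine ⟨M, ?_, fun l s hs => ⟨?_, ?_⟩⟩
  · rintro w ⟨t, ht⟩
    refine ⟨t, ?_, ht⟩
    obtain ⟨u, rfl, hu⟩ := (hM w t).1 ht
    obtain ⟨-, v, rfl, -, hv⟩ := (hK _ _).1 hu
    simp only [List.length_reverse] at *
    omega
  · rintro ⟨t, ht⟩
    obtain ⟨u, rfl, hu⟩ := (hM _ t).1 ht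
    rw [List.reverse_reverse] at hu
    obtain ⟨-, v, rfl, a, hv⟩ := (hK _ _).1 hu
    rw [← hs, off] at a
    split_ifs at a with h
    obtain ⟨w, b, c⟩ := a
    exact ⟨w, b, _, by omega, c⟩
  · rintro ⟨w, a, t, b, c⟩
    refine ⟨_, (hM _ _).2 ⟨_, rfl, (List.reverse_reverse l).symm ▸ (hK l _).2
      ⟨by rintro rfl; simp at b, s.x.length + 1 + t, rfl, ?_, b⟩⟩⟩
    rw [← hs, off_add]
    exact ⟨w, a, c⟩

variable (e : Bool → σ)

lemma b_data (x : List Bool) : (x.map Sum.inl).foldl (bstep e) ⟨[], 0, [], [], [], 0⟩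
    = ⟨x, 0, [], [], [], x.length⟩ := by
  induction x using List.reverseRecOn with
  | nil => rfl
  | append_singleton x b ih => rw [List.map_append, List.foldl_append, ih]; simp [bstep]

lemma b_gen (p : List σ) (s : Bs σ) : (p.map fun a => .inr (.inl a)).foldl (bstep e) s
    = ⟨s.x, s.k, s.h ++ p, s.w, s.S, s.n + p.length⟩ := by
  induction p using List.reverseRecOn with
  | nil => simp
  | append_singleton p b ih =>
    rw [List.map_append, List.foldl_append, ih]; simp [bstep, add_assoc]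

lemma b_app (p : List σ) (s : Bs σ) : (p.map fun a => .inr (.inr (.inl a))).foldl (bstep e) s
    = ⟨s.x, s.k, s.h, s.w ++ p, s.S, s.n + p.length⟩ := by
  induction p using List.reverseRecOn with
  | nil => simp
  | append_singleton p b ih =>
    rw [List.map_append, List.foldl_append, ih]; simp [bstep, add_assoc]

lemma b_next (j : ℕ) (s : Bs σ) (hs : s.k = 0) :
    (List.replicate j (.inr (.inr (.inr false)))).foldl (bstep e) s
      = ⟨s.x, j, s.h, s.w ++ (s.x.map e).reverse.take j, s.S, s.n + j⟩ := by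
  induction j with
  | zero => cases s; simp_all
  | succ j ih =>
    rw [List.replicate_succ', List.foldl_append, ih, List.take_add_one]
    simp [bstep, add_assoc]

lemma b_all (m b : ℕ) (L : List (List Bool)) (hL : ∀ α ∈ L, α.length = b) :
    ∃ q : List (Bool ⊕ σ ⊕ σ ⊕ Bool), q.length = L.length * (m + b + 1) ∧
      ∀ s : Bs σ, s.k = 0 → s.w = s.h → s.x.length = m → (q.foldl (bstep e) s).x = s.x ∧
        ∀ w, w ∈ (q.foldl (bstep e) s).S ↔
          w ∈ s.S ∨ ∃ α ∈ L, w = s.h ++ ((s.x ++ α).map e).reverse := by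
  induction L with
  | nil => exact ⟨[], by simp, fun s _ _ _ => by simp⟩
  | cons α L ih =>
    obtain ⟨q, h1, h2⟩ := ih fun β h => hL β (List.mem_cons_of_mem _ h)
    refine ⟨((α.map e).reverse.map fun a => .inr (.inr (.inl a))) ++
      List.replicate m (.inr (.inr (.inr false))) ++ [.inr (.inr (.inr true))] ++ q, ?_,
      fun s a1 a2 a3 => ?_⟩
    · simp only [List.length_append, List.length_map, List.length_reverse, List.length_replicate,
        List.length_cons, List.length_nil, h1, hL α List.mem_cons_self, add_mul]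
      omega
    rw [List.foldl_append, List.foldl_append, List.foldl_append, b_app, b_next e m _ (by exact a1),
      List.take_of_length_le (by simp [a3])]
    simp only [List.foldl_cons, List.foldl_nil, bstep]
    obtain ⟨b1, b2⟩ := h2 ⟨s.x, 0, s.h, s.h,
      (s.w ++ (α.map e).reverse ++ (s.x.map e).reverse) :: s.S,
      s.n + (α.map e).reverse.length + m + 1⟩ rfl rfl a3
    refine ⟨b1, fun w => (b2 w).trans ?_⟩
    simp only [List.mem_cons, exists_eq_or_imp, a2, List.map_append, List.reverse_append,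
      List.append_assoc]
    tauto

lemma exists_words (b : ℕ) :
    ∃ L : List (List Bool), L.length = 2 ^ b ∧ ∀ α, α ∈ L ↔ α.length = b := by
  induction b with
  | zero => exact ⟨[[]], rfl, by simp⟩
  | succ b ih =>
    obtain ⟨L, h1, h2⟩ := ih
    refine ⟨L.map (false :: ·) ++ L.map (true :: ·), by simp [h1, pow_succ, mul_two], fun α => ?_⟩
    rcases α with _ | ⟨_ | _, α⟩ <;> simp [h2]

/-- a language decides `F` on the last `m` letters, after a word that depends only on `F` -/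
def Rl (L : Set (List σ)) (e : Bool → σ) (m n : ℕ) (F : List Bool → Prop) : Prop :=
  ∃ p : List σ, p.length + m ≤ n ∧
    ∀ x : List Bool, x.length = m → (p ++ (x.map e).reverse ∈ L ↔ F x)

theorem project [Finite σ] (N : OLCA σ) : ∃ M : OLIA (Bool ⊕ σ ⊕ σ ⊕ Bool),
    (M.Time fun n => 4 * n) ∧ ∀ (m b n t : ℕ) (F : List Bool → Prop),
      (∀ w ∈ N.lang, w.length ≤ n → ∃ u ≤ t, N.AccAt w u) → Rl N.lang e (m + b) n F →
      Rl M.lang Sum.inl m (n + 2 ^ b * (m + b + 1) + t + 2)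
        fun x => ∃ α : List Bool, α.length = b ∧ F (x ++ α) := by
  obtain ⟨M, h1, h2⟩ := exists_batch N e
  refine ⟨M, h1, fun m b n t F hT ⟨p, p1, p2⟩ => ?_⟩
  obtain ⟨L, l1, l2⟩ := exists_words b
  obtain ⟨q, q1, q2⟩ := b_all e m b L fun α h => (l2 α).1 h
  refine ⟨((p.map fun a => Sum.inr (Sum.inl a)) ++ [Sum.inr (Sum.inr (Sum.inr true))] ++ q ++
    (List.replicate (t + 1) (e false)).map fun a => Sum.inr (Sum.inl a)).reverse, ?_, fun x hx => ?_⟩
  · simp only [List.length_append, List.length_map, List.length_reverse, List.length_replicate,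
      List.length_cons, List.length_nil, q1, l1]
    omega
  rw [← List.reverse_append, h2 _ _ rfl]
  simp only [List.foldl_append, b_data, b_gen, List.foldl_cons, List.foldl_nil, bstep,
    List.nil_append]
  obtain ⟨a1, a2⟩ := q2 ⟨x, 0, p, p, [[]], x.length + p.length + 1⟩ rfl rfl hx
  simp only [a1, a2, List.mem_singleton, l2]
  constructor
  · rintro ⟨w, rfl | ⟨α, b1, rfl⟩, u, -, b2⟩
    · exact (N.not_acc_nil u b2).elim
    · exact ⟨α, b1, (p2 _ (by simp [hx, b1])).1 ⟨u, b2⟩⟩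
  · rintro ⟨α, b1, b2⟩
    obtain ⟨u, c1, c2⟩ := hT _ ((p2 _ (by simp [hx, b1])).2 b2) (by simp; omega)
    refine ⟨_, Or.inr ⟨α, b1, rfl⟩, u, ?_, c2⟩
    simp only [List.length_append, List.length_map, List.length_replicate, List.length_cons]
    omega

end Pool.Agent.P.MP_c1ff4a_lc
end
end

-- part Pool.Agent.P.MP_c1ff4a_lc.SatB
section

/-! Fast simulations give small circuits for existential projections. -/

set_option autoImplicit false

open Classical

noncomputable section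

namespace Pool.Agent.P.MP_c1ff4a_lc

/-- projections over `B` bits are decided with words of length `2 ^ (θ B)` times a polynomial -/
def Sth (θ : ℝ) (A : ℕ → Prop) : Prop :=
  ∃ (σ : Type) (_ : Finite σ) (M : OLIA σ) (e : Bool → σ) (D : ℕ), (M.Time fun n => 4 * n) ∧
    ∀ (m B : ℕ) (C : Circuit), A B → ∃ n : ℕ,
      (n : ℝ) ≤ ((C.gates.length + m + B + 2 : ℕ) : ℝ) ^ D * 2 ^ (θ * B) ∧
      Rl M.lang e m n fun x => ∃ α : List Bool, α.length = B ∧ C.eval (x ++ α) = true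

lemma Sth_zero : Sth 0 (· = 0) := by
  obtain ⟨M, h1, h2⟩ := exists_eval
  refine ⟨Ins, inferInstance, M, Sum.inl, 3, h1, ?_⟩
  rintro m _ C rfl
  obtain ⟨r, hr⟩ : ∃ r, r = C.gates.length + m := ⟨_, rfl⟩
  obtain ⟨w, w1, w2⟩ := exists_prog r C.gates
  refine ⟨2 * (r + 2) ^ 2, ?_, (w ++ mv (min C.out r) ++ [(.inr 4 : Ins)]).reverse, ?_,
    fun x hx => ?_⟩
  · rw [zero_mul, Real.rpow_zero, mul_one, add_zero, ← hr, pow_succ' _ 2]
    exact_mod_cast Nat.mul_le_mul_right _ (by omega)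
  · have := min_le_right C.out r
    simp only [List.length_reverse, List.length_append, mv, List.length_cons,
      List.length_replicate, List.length_nil]
    nlinarith
  rw [← List.reverse_append, h2 _ (by simp)]
  have h3 : (wires C.gates x).length ≤ r := by rw [wires_length]; omega
  have h4 := w2 ((x.map Sum.inl).foldl stp ([], 0, 0, False)) (by rw [bits_spec]; omega)
  simp only [List.foldl_append, mv_spec, List.foldl_cons, List.foldl_nil, stp, true_and,
    h4, bits_spec, getD_min _ h3, List.length_eq_zero_iff, exists_eq_left, List.append_nil,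
    Circuit.eval]

lemma exists_pow_ge (K : ℝ) : ∃ k : ℕ, ∀ z : ℝ, 2 ≤ z → K ≤ z ^ k := by
  obtain ⟨k, hk⟩ := pow_unbounded_of_one_lt K (one_lt_two (α := ℝ))
  exact ⟨k, fun z hz => hk.le.trans (pow_le_pow_left₀ (by norm_num) hz k)⟩

variable {c : ℝ}

/-- the time of the simulating array -/
lemma time_bd (hc : 1 ≤ c) {σ : Type} {N : OLCA σ} {K : ℝ}
    (hT : N.Time fun n => ⌊K * (n : ℝ) ^ c⌋₊) (D : ℕ) : ∃ D' : ℕ, ∀ (n : ℕ) (z y : ℝ), 2 ≤ z →
      (n : ℝ) ≤ z ^ D * 2 ^ y → ∃ t : ℕ, (t : ℝ) ≤ z ^ D' * 2 ^ (c * y) ∧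
        ∀ w ∈ N.lang, w.length ≤ n → ∃ u ≤ t, N.AccAt w u := by
  obtain ⟨k, hk⟩ := exists_pow_ge |K|
  refine ⟨k + D * ⌈c⌉₊, fun n z y hz hn => ⟨⌊|K| * (n : ℝ) ^ c⌋₊, ?_, fun w hw h => ?_⟩⟩
  · refine (Nat.floor_le (by positivity)).trans ?_
    rw [pow_add, mul_assoc]
    refine mul_le_mul (hk z hz) ((Real.rpow_le_rpow (by positivity) hn (by linarith)).trans ?_)
      (by positivity) (by positivity)
    rw [Real.mul_rpow (by positivity) (by positivity), ← Real.rpow_mul (by norm_num), mul_comm y,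
      pow_mul, ← Real.rpow_natCast _ ⌈c⌉₊]
    exact mul_le_mul_of_nonneg_right (Real.rpow_le_rpow_of_exponent_le
      (one_le_pow₀ (by linarith)) (Nat.le_ceil c)) (by positivity)
  · obtain ⟨u, h1, h2⟩ := hT w hw
    refine ⟨u, h1.trans (Nat.floor_mono ?_), h2⟩
    exact mul_le_mul (le_abs_self K) (Real.rpow_le_rpow (by positivity) (by exact_mod_cast h)
      (by linarith)) (by positivity) (abs_nonneg K)

variable (H : ∀ (σ : Type) [Finite σ] (M : OLIA σ), (M.Time fun n => 4 * n) →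
  ∃ (N : OLCA σ) (K : ℝ), N.lang = M.lang ∧ N.Time fun n => ⌊K * (n : ℝ) ^ c⌋₊)

include H

lemma Sth.step (hc : 1 ≤ c) {θ θ' : ℝ} {A : ℕ → Prop} (h : Sth θ A) (h0 : 0 ≤ θ) (h1 : 0 ≤ θ')
    (h2 : θ' ≤ 1) (h3 : c * θ * (1 - θ') ≤ θ') (hA : ∀ B : ℕ, A (B - ⌈θ' * B⌉₊)) :
    Sth θ' fun _ => True := by
  obtain ⟨σ, _, M, e, D, a1, a2⟩ := h
  obtain ⟨N, K, b1, b2⟩ := H σ M a1
  obtain ⟨M', c1, c2⟩ := project e N
  obtain ⟨D', d1⟩ := time_bd hc b2 D
  refine ⟨_, inferInstance, M', Sum.inl, D + D' + 1 + 3, c1, fun m B C _ => ?_⟩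
  obtain ⟨b, hb⟩ : ∃ b, b = ⌈θ' * B⌉₊ := ⟨_, rfl⟩
  have hB0 : (0 : ℝ) ≤ B := Nat.cast_nonneg _
  have e1 : b ≤ B := hb ▸ Nat.ceil_le.2 (by nlinarith)
  have e2 : θ' * B ≤ b := hb ▸ Nat.le_ceil _
  have e3 : (b : ℝ) ≤ θ' * B + 1 := hb ▸ (Nat.ceil_lt_add_one (by positivity)).le
  obtain ⟨n, f1, f2⟩ := a2 (m + b) (B - b) C (hb ▸ hA B)
  rw [show C.gates.length + (m + b) + (B - b) + 2 = C.gates.length + m + B + 2 by omega] at f1
  obtain ⟨z, hz⟩ : ∃ z : ℝ, z = (C.gates.length + m + B + 2 : ℕ) := ⟨_, rfl⟩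
  have z2 : 2 ≤ z := by rw [hz]; exact_mod_cast (by omega)
  have z3 : ((m + b + 1 : ℕ) : ℝ) ≤ z := by rw [hz]; exact_mod_cast (by omega)
  rw [← hz] at f1 ⊢
  obtain ⟨t, g1, g2⟩ := d1 n z _ z2 f1
  obtain ⟨p, p1, p2⟩ := c2 m b n t _ g2 (b1 ▸ f2)
  refine ⟨_, ?_, p, p1, fun x hx => (p2 x hx).trans ⟨?_, ?_⟩⟩
  · have y0 : (0 : ℝ) ≤ θ * (B - b : ℕ) := by positivity
    have y1 : c * (θ * (B - b : ℕ)) ≤ θ' * B := by
      rw [Nat.cast_sub e1]
      nlinarith [mul_le_mul_of_nonneg_right h3 hB0,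
        mul_le_mul_of_nonneg_left e2 (show 0 ≤ c * θ by positivity)]
    have y2 := Real.rpow_le_rpow_of_exponent_le one_le_two y1
    have y3 := Real.rpow_le_rpow_of_exponent_le one_le_two
      (show θ * (B - b : ℕ) ≤ θ' * B by nlinarith)
    have y4 : (2 : ℝ) ^ b ≤ 2 ^ (θ' * B) * 2 := by
      rw [← Real.rpow_add_one two_ne_zero, ← Real.rpow_natCast]
      exact Real.rpow_le_rpow_of_exponent_le one_le_two e3
    have y5 : (1 : ℝ) ≤ 2 ^ (θ' * B) := Real.one_le_rpow one_le_two (by positivity)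
    generalize (2 : ℝ) ^ (θ' * B) = E at *
    have z1 : 1 ≤ z := by linarith
    have u1 := pow_le_pow_right₀ z1 (show D ≤ D + D' + 1 by omega)
    have u2 := pow_le_pow_right₀ z1 (show D' ≤ D + D' + 1 by omega)
    have u3 := pow_le_pow_right₀ z1 (show 1 ≤ D + D' + 1 by omega)
    have u4 := pow_le_pow_left₀ (by norm_num) z2 3
    rw [pow_one] at u3
    have v1 := f1.trans (mul_le_mul u1 y3 (by positivity) (by positivity))
    have v2 := g1.trans (mul_le_mul u2 y2 (by positivity) (by positivity))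
    have v3 := mul_le_mul y4 (z3.trans u3) (by positivity) (by positivity)
    have v4 := mul_le_mul (z2.trans u3) y5 (by norm_num) (by positivity)
    have v5 := mul_le_mul_of_nonneg_left u4 (show 0 ≤ z ^ (D + D' + 1) * E by positivity)
    rw [pow_add _ _ 3, Nat.cast_add, Nat.cast_add, Nat.cast_add, Nat.cast_mul, Nat.cast_pow]
    push_cast at v3 ⊢
    nlinarith
  · rintro ⟨α, a, β, a', k⟩
    exact ⟨α ++ β, by simp; omega, by rwa [← List.append_assoc]⟩
  · rintro ⟨γ, a, k⟩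
    exact ⟨γ.take b, by simp; omega, γ.drop b, by simp; omega, by
      rwa [List.append_assoc, List.take_append_drop]⟩

lemma Sth_small (hc : 1 ≤ c) {ε : ℝ} (h0 : 0 < ε) (h1 : ε ≤ 1) :
    Sth ((c - 1 + ε) / c) fun _ => True := by
  obtain ⟨τ, hτ⟩ : ∃ τ, τ = (c - 1 + ε) / c := ⟨_, rfl⟩
  have t0 : c * τ = c - 1 + ε := by rw [hτ]; field_simp
  have t1 : 0 < τ := by rw [hτ]; exact div_pos (by linarith) (by linarith)
  have t2 : τ ≤ 1 := by rw [hτ, div_le_one (by linarith)]; linarith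
  obtain ⟨η, hη⟩ : ∃ η, η = τ * ε / (1 + c) := ⟨_, rfl⟩
  have n0 : η * (1 + c) = τ * ε := by rw [hη]; field_simp
  have n1 : 0 < η := by rw [hη]; positivity
  have key : ∀ j : ℕ, Sth (max τ (1 - j * η)) fun _ => True := fun j => by
    induction j with
    | zero =>
      rw [Nat.cast_zero, zero_mul, sub_zero, max_eq_right t2]
      exact Sth_zero.step H hc le_rfl zero_le_one le_rfl (by simp) (by simp)
    | succ j ih =>
      have a1 := le_max_left τ (1 - j * η)
      have a2 : max τ (1 - j * η) ≤ 1 := max_le t2 (by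
        have : 0 ≤ j * η := by positivity
        linarith)
      have a3 : max τ (1 - j * η) - η ≤ max τ (1 - (j + 1 : ℕ) * η) := by
        rw [sub_le_iff_le_add, ← max_add_add_right]
        exact max_le_max (by linarith) (by push_cast; linarith)
      have a4 : max τ (1 - (j + 1 : ℕ) * η) ≤ 1 := max_le t2 (by
        have : 0 ≤ (j + 1 : ℕ) * η := by positivity
        linarith)
      refine ih.step H hc (t1.le.trans a1) (t1.le.trans (le_max_left _ _)) a4 ?_ fun _ => trivial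
      generalize max τ (1 - j * η) = θ at *
      generalize max τ (1 - (j + 1 : ℕ) * η) = θ' at *
      have b0 : 0 ≤ c * θ := by nlinarith
      have b1 : τ * ε ≤ θ * (1 - c + c * θ) :=
        mul_le_mul a1 (by nlinarith) h0.le (by linarith)
      nlinarith [mul_le_mul_of_nonneg_left a3 b0,
        mul_le_mul_of_nonneg_left a2 (show 0 ≤ c * η by positivity)]
  obtain ⟨j, hj⟩ := exists_nat_ge (1 / η)
  have := key j
  rw [div_le_iff₀ n1] at hj
  rwa [max_eq_left (by linarith), hτ] at this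

theorem sat_transfer (hc : 1 ≤ c) {ε : ℝ} (hε : 0 < ε) : ∃ D : ℕ, ∀ (m B : ℕ) (C : Circuit),
    ∃ C' : Circuit, (C'.gates.length : ℝ)
        ≤ ((C.gates.length + m + B + 2 : ℕ) : ℝ) ^ D * 2 ^ ((c - 1 + ε) * B) ∧
      ∀ x : List Bool, x.length = m →
        (C'.eval x = true ↔ ∃ α : List Bool, α.length = B ∧ C.eval (x ++ α) = true) := by
  obtain ⟨σ, _, M, e, D, a1, a2⟩ := Sth_small H hc (lt_min hε one_pos) (min_le_right ε 1)
  obtain ⟨N, K, b1, b2⟩ := H σ M a1
  obtain ⟨D', d1⟩ := time_bd hc b2 D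
  obtain ⟨K₀, k1⟩ := cascade N e
  obtain ⟨k, hk⟩ := exists_pow_ge (K₀ * 3 * (D' + ⌈c⌉₊ + 2 : ℕ))
  refine ⟨k + D' + 2, fun m B C => ?_⟩
  obtain ⟨n, f1, p, p1, p2⟩ := a2 m B C trivial
  obtain ⟨z, hz⟩ : ∃ z, z = C.gates.length + m + B + 2 := ⟨_, rfl⟩
  rw [← hz] at f1 ⊢
  have z2 : (2 : ℝ) ≤ z := by exact_mod_cast (by omega)
  obtain ⟨t, g1, g2⟩ := d1 n z _ z2 f1
  have hB0 : (0 : ℝ) ≤ B := Nat.cast_nonneg _
  have m0 := lt_min hε one_pos
  rw [← mul_assoc, mul_div_cancel₀ _ (by linarith)] at g1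
  have g3 : t + 1 ≤ 2 ^ (z * (D' + ⌈c⌉₊) + 1) := by
    have u1 : (z : ℝ) ^ D' ≤ (2 ^ z) ^ D' :=
      pow_le_pow_left₀ (by positivity) (by exact_mod_cast Nat.lt_two_pow_self.le) _
    have u2 : (2 : ℝ) ^ ((c - 1 + min ε 1) * B) ≤ 2 ^ (z * ⌈c⌉₊) := by
      rw [← Real.rpow_natCast]
      refine Real.rpow_le_rpow_of_exponent_le one_le_two ?_
      rw [Nat.cast_mul, mul_comm (z : ℝ)]
      exact mul_le_mul (by linarith [min_le_right ε 1, Nat.le_ceil c])
        (by exact_mod_cast (by omega)) hB0 (Nat.cast_nonneg _)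
    have u3 := g1.trans (mul_le_mul u1 u2 (by positivity) (by positivity))
    rw [← pow_mul, ← pow_add, ← mul_add] at u3
    have u4 : t ≤ 2 ^ (z * (D' + ⌈c⌉₊)) := by exact_mod_cast u3
    have := Nat.one_le_two_pow (n := z * (D' + ⌈c⌉₊))
    rw [pow_succ]
    omega
  obtain ⟨C', c1, -, c3⟩ := k1 m t _ p g3
  refine ⟨C', ?_, fun x hx => (c3 x hx).trans (Iff.trans ⟨fun ⟨u, _, h⟩ => b1 ▸ ⟨u, h⟩, fun h =>
    g2 _ (b1 ▸ h) (by simp; omega)⟩ (p2 x hx))⟩
  have y1 : (2 : ℝ) ^ ((c - 1 + min ε 1) * B) ≤ 2 ^ ((c - 1 + ε) * B) :=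
    Real.rpow_le_rpow_of_exponent_le one_le_two
      (mul_le_mul_of_nonneg_right (by linarith [min_le_left ε 1]) hB0)
  have y2 : (1 : ℝ) ≤ 2 ^ ((c - 1 + ε) * B) :=
    Real.one_le_rpow one_le_two (mul_nonneg (by linarith) hB0)
  have y3 : (1 : ℝ) ≤ (z : ℝ) ^ D' := one_le_pow₀ (by linarith)
  have y4 := g1.trans (mul_le_mul_of_nonneg_left y1 (by positivity))
  generalize (2 : ℝ) ^ ((c - 1 + ε) * B) = E at *
  have y5 : (t : ℝ) + 2 ≤ 3 * ((z : ℝ) ^ D' * E) := by nlinarith [mul_le_mul y3 y2 zero_le_one]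
  have y6 : C'.gates.length ≤ K₀ * z * (t + 2) * (z * (D' + ⌈c⌉₊ + 2)) :=
    c1.trans (Nat.mul_le_mul (Nat.mul_le_mul_right _ (Nat.mul_le_mul_left _ (by omega)))
      (by rw [mul_add z _ 2]; omega))
  calc (C'.gates.length : ℝ) ≤ K₀ * z * (t + 2) * (z * (D' + ⌈c⌉₊ + 2 : ℕ)) := by exact_mod_cast y6
    _ ≤ K₀ * z * (3 * ((z : ℝ) ^ D' * E)) * (z * (D' + ⌈c⌉₊ + 2 : ℕ)) := by gcongr
    _ = K₀ * 3 * (D' + ⌈c⌉₊ + 2 : ℕ) * ((z : ℝ) ^ (D' + 2) * E) := by ring
    _ ≤ (z : ℝ) ^ k * ((z : ℝ) ^ (D' + 2) * E) :=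
        mul_le_mul_of_nonneg_right (hk z z2) (by positivity)
    _ = _ := by ring

end Pool.Agent.P.MP_c1ff4a_lc
end
end
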